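import Pool.Agent.Helper97.BestAction.PR

/-!
# The finite automaton of a formula, as an arithmetical predicate

States are bit masks of facts. `M` is an exclusive bound for the Goedel numbers of the formulas
that are considered; `k` is the number of players; `q` codes the positions of the thresholds.
-/

namespace Pool.Agent.Helper97.BestAction

/-- The `i`-th digit of `q` in base `b`. -/
def dig (b q i : ℕ) : ℕ := (q / b ^ i) % b

/-- The `i`-th bit of `q`. -/
def bit (q i : ℕ) : Prop := dig 2 q i = 1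

/-- The fact that formula number `n` is true. -/
def fF (τ n : ℕ) : Prop := bit τ (3 * n)

/-- The fact that the cell `v` of player `j` occurs among the outcomes. -/
def fC (τ j v : ℕ) : Prop := bit τ (3 * Nat.pair j v + 1)

/-- The fact that the threshold of player `j` and formula `n` is attained below. -/
def fW (τ j n : ℕ) : Prop := bit τ (3 * Nat.pair j n + 2)

/-- Bound for the cells. -/
def cb (M : ℕ) : ℕ := 2 * M + 3

/-- Position of the threshold of player `j` and formula `n`. -/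
def posv (M q j n : ℕ) : ℕ := dig (cb M) q (Nat.pair j n)

/-- Bound for (the numbers of) pairs. -/
def pb (k M : ℕ) : ℕ := (k + cb M + 1) ^ 2

/-- Bound for (the numbers of) facts. -/
def fb (k M : ℕ) : ℕ := 3 * pb k M + 3

/-- Bound for states. -/
def sb (k M : ℕ) : ℕ := 2 ^ fb k M

def cNeg (k m : ℕ) : ℕ := k + 1 + ((7 + 2 * k) * m + 1)

def cAnd (k m m' : ℕ) : ℕ := k + 1 + ((7 + 2 * k) * Nat.pair m m' + 2)

def cDia (k t m : ℕ) : ℕ := k + 1 + ((7 + 2 * k) * m + t)

/-- Boolean consistency of a state. -/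
def BoolOK (k M τ : ℕ) : Prop :=
  (∀ m < M, cNeg k m < M → (fF τ (cNeg k m) ↔ ¬ fF τ m)) ∧
  (∀ m < M, ∀ m' < M, cAnd k m m' < M → (fF τ (cAnd k m m') ↔ fF τ m ∧ fF τ m'))

/-- The states of end nodes. -/
def LeafOK (k M q τ : ℕ) : Prop :=
  BoolOK k M τ ∧ fF τ 0 ∧ (∀ j < k, ¬ fF τ (1 + j)) ∧
  (∀ m < M, ∀ t < 6, 3 ≤ t → cDia k t m < M → ¬ fF τ (cDia k t m)) ∧
  (∀ m < M, cDia k 6 m < M → (fF τ (cDia k 6 m) ↔ fF τ m)) ∧
  (∀ m < M, ∀ j < k, cDia k (7 + j) m < M → ¬ fF τ (cDia k (7 + j) m)) ∧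
  (∀ j < k, ∃ v < cb M, 1 ≤ v ∧ (∀ v' < cb M, (fC τ j v' ↔ v' = v)) ∧
    (∀ m < M, cDia k (7 + k + j) m < M → (fF τ (cDia k (7 + k + j) m) ↔ v ≤ posv M q j m)) ∧
    (∀ m < M, fF τ m → v ≤ posv M q j m) ∧
    (∀ m < M, (fW τ j m ↔ fF τ m ∧ v = posv M q j m)))

/-- The states `τ` of inner nodes, in terms of the set `K` of states of the children that are not
best and of the set `K'` of states of the best children. -/
def NodeOK (k M K K' τ : ℕ) : Prop :=
  BoolOK k M τ ∧ ¬ fF τ 0 ∧
  (∃ σ < sb k M, bit K' σ) ∧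
  (∃ i < k, (∀ j < k, (fF τ (1 + j) ↔ j = i)) ∧
    (∀ σ < sb k M, bit K' σ → ∀ ρ < sb k M, bit K' ρ →
      ∃ v < cb M, ∃ v' < cb M, fC σ i v ∧ fC ρ i v' ∧ v' ≤ v) ∧
    (∀ σ < sb k M, bit K σ → ∃ ρ < sb k M, bit K' ρ ∧
      ∀ v < cb M, ∀ v' < cb M, fC σ i v → fC ρ i v' → v < v' ∨ (v = v' ∧ v % 2 = 1))) ∧
  (∀ m < M, cDia k 3 m < M → (fF τ (cDia k 3 m) ↔ ∃ σ < sb k M, (bit K σ ∨ bit K' σ) ∧ fF σ m)) ∧
  (∀ m < M, cDia k 4 m < M → (fF τ (cDia k 4 m) ↔
    ∃ σ < sb k M, (bit K σ ∨ bit K' σ) ∧ (fF σ m ∨ fF σ (cDia k 4 m)))) ∧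
  (∀ m < M, cDia k 5 m < M → (fF τ (cDia k 5 m) ↔ ∃ σ < sb k M, bit K' σ ∧ fF σ m)) ∧
  (∀ m < M, cDia k 6 m < M → (fF τ (cDia k 6 m) ↔
    fF τ m ∨ ∃ σ < sb k M, bit K' σ ∧ fF σ (cDia k 6 m))) ∧
  (∀ m < M, ∀ j < k, cDia k (7 + j) m < M → (fF τ (cDia k (7 + j) m) ↔
    fF τ (1 + j) ∧ ∃ σ < sb k M, (bit K σ ∨ bit K' σ) ∧ fF σ m)) ∧
  (∀ m < M, ∀ j < k, cDia k (7 + k + j) m < M → ¬ fF τ (cDia k (7 + k + j) m)) ∧
  (∀ j < k, ∀ v < cb M, (fC τ j v ↔ ∃ σ < sb k M, bit K' σ ∧ fC σ j v)) ∧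
  (∀ j < k, ∀ m < M, (fW τ j m ↔ ∃ σ < sb k M, (bit K σ ∨ bit K' σ) ∧ fW σ j m))

/-- `S` is closed under the transitions of the automaton. -/
def Closed (k M q S : ℕ) : Prop :=
  (∀ τ < sb k M, LeafOK k M q τ → bit S τ) ∧
  (∀ K < 2 ^ sb k M, ∀ K' < 2 ^ sb k M, ∀ τ < sb k M,
    (∀ σ < sb k M, bit K σ ∨ bit K' σ → bit S σ) → NodeOK k M K K' τ → bit S τ)

/-- The exclusive bound of the Goedel numbers considered for formula number `n`. -/
def bd (k n : ℕ) : ℕ := cDia k 4 (cNeg k n) + 1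

/-- The accepting states. -/
def Acc (k M q n τ : ℕ) : Prop :=
  (∀ j < k, ∀ m < M, posv M q j m ≠ 0 → fW τ j m) ∧ (¬ fF τ n ∨ fF τ (cDia k 4 (cNeg k n)))

/-- The arithmetical predicate which says that formula number `n` can be refuted. -/
def Refutable (k n : ℕ) : Prop :=
  ∃ q < cb (bd k n) ^ pb k (bd k n),
    (∀ j < k, ∀ m < bd k n, posv (bd k n) q j m % 2 = 0) ∧
    ∀ S < 2 ^ sb k (bd k n), Closed k (bd k n) q S →
      ∃ τ < sb k (bd k n), bit S τ ∧ Acc k (bd k n) q n τ

/-! ### Primitive recursiveness -/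

section
variable {α : Type*} [Primcodable α]

theorem pr_dig {f g h : α → ℕ} (hf : Primrec f) (hg : Primrec g) (hh : Primrec h) :
    Primrec fun a => dig (f a) (g a) (h a) :=
  PR.mod (PR.div hg (PR.pow hf hh)) hf

theorem pr_bit {f g : α → ℕ} (hf : Primrec f) (hg : Primrec g) :
    PrimrecPred fun a => bit (f a) (g a) :=
  PR.eq (pr_dig (PR.const 2) hf hg) (PR.const 1)

theorem pr_fF {f g : α → ℕ} (hf : Primrec f) (hg : Primrec g) :
    PrimrecPred fun a => fF (f a) (g a) :=
  pr_bit hf (PR.mul (PR.const 3) hg)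

theorem pr_fC {f g h : α → ℕ} (hf : Primrec f) (hg : Primrec g) (hh : Primrec h) :
    PrimrecPred fun a => fC (f a) (g a) (h a) :=
  pr_bit hf (PR.add (PR.mul (PR.const 3) (PR.pair hg hh)) (PR.const 1))

theorem pr_fW {f g h : α → ℕ} (hf : Primrec f) (hg : Primrec g) (hh : Primrec h) :
    PrimrecPred fun a => fW (f a) (g a) (h a) :=
  pr_bit hf (PR.add (PR.mul (PR.const 3) (PR.pair hg hh)) (PR.const 2))

theorem pr_cb {f : α → ℕ} (hf : Primrec f) : Primrec fun a => cb (f a) :=
  PR.add (PR.mul (PR.const 2) hf) (PR.const 3)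

theorem pr_posv {f g h l : α → ℕ} (hf : Primrec f) (hg : Primrec g) (hh : Primrec h)
    (hl : Primrec l) : Primrec fun a => posv (f a) (g a) (h a) (l a) :=
  pr_dig (pr_cb hf) hg (PR.pair hh hl)

theorem pr_pb (k : ℕ) {f : α → ℕ} (hf : Primrec f) : Primrec fun a => pb k (f a) :=
  PR.pow (PR.add (PR.add (PR.const k) (pr_cb hf)) (PR.const 1)) (PR.const 2)

theorem pr_fb (k : ℕ) {f : α → ℕ} (hf : Primrec f) : Primrec fun a => fb k (f a) :=
  PR.add (PR.mul (PR.const 3) (pr_pb k hf)) (PR.const 3)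

theorem pr_sb (k : ℕ) {f : α → ℕ} (hf : Primrec f) : Primrec fun a => sb k (f a) :=
  PR.pow (PR.const 2) (pr_fb k hf)

theorem pr_cNeg (k : ℕ) {f : α → ℕ} (hf : Primrec f) : Primrec fun a => cNeg k (f a) :=
  PR.add (PR.const (k + 1)) (PR.add (PR.mul (PR.const (7 + 2 * k)) hf) (PR.const 1))

theorem pr_cAnd (k : ℕ) {f g : α → ℕ} (hf : Primrec f) (hg : Primrec g) :
    Primrec fun a => cAnd k (f a) (g a) :=
  PR.add (PR.const (k + 1)) (PR.add (PR.mul (PR.const (7 + 2 * k)) (PR.pair hf hg)) (PR.const 2))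

theorem pr_cDia (k : ℕ) {f g : α → ℕ} (hf : Primrec f) (hg : Primrec g) :
    Primrec fun a => cDia k (f a) (g a) :=
  PR.add (PR.const (k + 1)) (PR.add (PR.mul (PR.const (7 + 2 * k)) hg) hf)

theorem pr_BoolOK (k : ℕ) {f g : α → ℕ} (hf : Primrec f) (hg : Primrec g) :
    PrimrecPred fun a => BoolOK k (f a) (g a) := by
  unfold BoolOK
  repeat' with_reducible first
    | apply PR.all_lt | apply PR.ex_lt | apply PR.and | apply PR.or | apply PR.not | apply PR.iff
    | apply PR.imp | apply pr_bit | apply pr_fF | apply pr_fC | apply pr_fW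
    | apply PR.lt | apply PR.le | apply PR.eq | apply PR.ne
    | exact PR.const _ | apply pr_cNeg | apply pr_cAnd | apply pr_cDia | apply pr_posv
    | apply pr_sb | apply pr_pb | apply pr_cb | apply PR.add | apply PR.mul | apply PR.mod
    | apply PR.pow
    | exact PR.id
    | (apply hf.comp) | (apply hg.comp)
    | apply PR.fst | apply PR.snd

theorem pr_LeafOK (k : ℕ) {f g h : α → ℕ} (hf : Primrec f) (hg : Primrec g) (hh : Primrec h) :
    PrimrecPred fun a => LeafOK k (f a) (g a) (h a) := by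
  unfold LeafOK
  repeat' with_reducible first
    | apply PR.all_lt | apply PR.ex_lt | apply PR.and | apply PR.or | apply PR.not | apply PR.iff
    | apply PR.imp | apply pr_bit | apply pr_fF | apply pr_fC | apply pr_fW
    | apply pr_BoolOK
    | apply PR.lt | apply PR.le | apply PR.eq | apply PR.ne
    | exact PR.const _ | apply pr_cNeg | apply pr_cAnd | apply pr_cDia | apply pr_posv
    | apply pr_sb | apply pr_pb | apply pr_cb | apply PR.add | apply PR.mul | apply PR.mod
    | apply PR.pow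
    | exact PR.id
    | (apply hf.comp) | (apply hg.comp) | (apply hh.comp)
    | apply PR.fst | apply PR.snd

theorem pr_NodeOK (k : ℕ) {f g h l : α → ℕ} (hf : Primrec f) (hg : Primrec g) (hh : Primrec h) (hl : Primrec l) :
    PrimrecPred fun a => NodeOK k (f a) (g a) (h a) (l a) := by
  unfold NodeOK
  repeat' with_reducible first
    | apply PR.all_lt | apply PR.ex_lt | apply PR.and | apply PR.or | apply PR.not | apply PR.iff
    | apply PR.imp | apply pr_bit | apply pr_fF | apply pr_fC | apply pr_fW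
    | apply pr_BoolOK
    | apply PR.lt | apply PR.le | apply PR.eq | apply PR.ne
    | exact PR.const _ | apply pr_cNeg | apply pr_cAnd | apply pr_cDia | apply pr_posv
    | apply pr_sb | apply pr_pb | apply pr_cb | apply PR.add | apply PR.mul | apply PR.mod
    | apply PR.pow
    | exact PR.id
    | (apply hf.comp) | (apply hg.comp) | (apply hh.comp) | (apply hl.comp)
    | apply PR.fst | apply PR.snd

theorem pr_Closed (k : ℕ) {f g h : α → ℕ} (hf : Primrec f) (hg : Primrec g) (hh : Primrec h) :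
    PrimrecPred fun a => Closed k (f a) (g a) (h a) := by
  unfold Closed
  repeat' with_reducible first
    | apply PR.all_lt | apply PR.ex_lt | apply PR.and | apply PR.or | apply PR.not | apply PR.iff
    | apply PR.imp | apply pr_bit | apply pr_fF | apply pr_fC | apply pr_fW
    | apply pr_BoolOK | apply pr_LeafOK | apply pr_NodeOK
    | apply PR.lt | apply PR.le | apply PR.eq | apply PR.ne
    | exact PR.const _ | apply pr_cNeg | apply pr_cAnd | apply pr_cDia | apply pr_posv
    | apply pr_sb | apply pr_pb | apply pr_cb | apply PR.add | apply PR.mul | apply PR.mod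
    | apply PR.pow
    | exact PR.id
    | (apply hf.comp) | (apply hg.comp) | (apply hh.comp)
    | apply PR.fst | apply PR.snd

theorem pr_bd (k : ℕ) {f : α → ℕ} (hf : Primrec f) : Primrec fun a => bd k (f a) :=
  PR.add (pr_cDia k (PR.const 4) (pr_cNeg k hf)) (PR.const 1)

theorem pr_Acc (k : ℕ) {f g h l : α → ℕ} (hf : Primrec f) (hg : Primrec g) (hh : Primrec h) (hl : Primrec l) :
    PrimrecPred fun a => Acc k (f a) (g a) (h a) (l a) := by
  unfold Acc
  repeat' with_reducible first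
    | apply PR.all_lt | apply PR.ex_lt | apply PR.and | apply PR.or | apply PR.not | apply PR.iff
    | apply PR.imp | apply pr_bit | apply pr_fF | apply pr_fC | apply pr_fW
    | apply pr_BoolOK
    | apply PR.lt | apply PR.le | apply PR.eq | apply PR.ne
    | exact PR.const _ | apply pr_cNeg | apply pr_cAnd | apply pr_cDia | apply pr_posv
    | apply pr_sb | apply pr_pb | apply pr_cb | apply PR.add | apply PR.mul | apply PR.mod
    | apply PR.pow
    | exact PR.id
    | (apply hf.comp) | (apply hg.comp) | (apply hh.comp) | (apply hl.comp)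
    | apply PR.fst | apply PR.snd

theorem pr_Refutable (k : ℕ) {f : α → ℕ} (hf : Primrec f) :
    PrimrecPred fun a => Refutable k (f a) := by
  unfold Refutable
  repeat' with_reducible first
    | apply PR.all_lt | apply PR.ex_lt | apply PR.and | apply PR.or | apply PR.not | apply PR.iff
    | apply PR.imp | apply pr_bit | apply pr_fF | apply pr_fC | apply pr_fW
    | apply pr_BoolOK | apply pr_Closed | apply pr_Acc | apply pr_bd
    | apply PR.lt | apply PR.le | apply PR.eq | apply PR.ne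
    | exact PR.const _ | apply pr_cNeg | apply pr_cAnd | apply pr_cDia | apply pr_posv
    | apply pr_sb | apply pr_pb | apply pr_cb | apply PR.add | apply PR.mul | apply PR.mod
    | apply PR.pow
    | exact PR.id
    | (apply hf.comp)
    | apply PR.fst | apply PR.snd

end

end Pool.Agent.Helper97.BestAction
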