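import Pool.Agent.Helper97.BestAction.Defs

/-!
# Basic theory of finite game trees and of Backward Induction
-/

namespace Pool.Agent.Helper97.BestAction

open Relation

namespace GameTree

variable {k : ℕ} (G : GameTree k)

/-! ### Depth and tree induction -/

inductive DepthIs : ℕ → G.Node → Prop
  | root : DepthIs 0 G.root
  | step {n : ℕ} {x y : G.Node} : DepthIs n x → G.move x y → DepthIs (n + 1) y

theorem exists_depth (x : G.Node) : ∃ n, G.DepthIs n x := by
  have h := G.reachable x
  induction h with
  | refl => exact ⟨0, .root⟩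
  | tail _ h ih => obtain ⟨n, hn⟩ := ih; exact ⟨n + 1, .step hn h⟩

theorem depth_unique {n m : ℕ} {x : G.Node} (h : G.DepthIs n x) (h' : G.DepthIs m x) : n = m := by
  induction h generalizing m with
  | root =>
    cases h' with
    | root => rfl
    | step _ h => exact (G.root_no_parent _ h).elim
  | step _ hxy ih =>
    cases h' with
    | root => exact (G.root_no_parent _ hxy).elim
    | step h1 h2 =>
      have := G.parent_unique _ _ _ hxy h2
      subst this
      rw [ih h1]

theorem depth_lt_of_transGen {x y : G.Node} (h : TransGen G.move x y) {n m : ℕ}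
    (hx : G.DepthIs n x) (hy : G.DepthIs m y) : n < m := by
  induction h generalizing m with
  | single h => have := G.depth_unique hy (.step hx h); omega
  | tail _ h ih =>
    rename_i b c _
    obtain ⟨l, hl⟩ := G.exists_depth b
    have := G.depth_unique hy (.step hl h)
    have := ih hl
    omega

theorem transGen_irrefl (x : G.Node) : ¬ TransGen G.move x x := by
  intro h
  obtain ⟨n, hn⟩ := G.exists_depth x
  exact lt_irrefl _ (G.depth_lt_of_transGen h hn hn)

theorem wf_child : WellFounded (fun y x : G.Node => TransGen G.move x y) := by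
  have := G.finite
  have : IsTrans G.Node (fun y x : G.Node => TransGen G.move x y) :=
    ⟨fun a b c h1 h2 => TransGen.trans h2 h1⟩
  have : Std.Irrefl (fun y x : G.Node => TransGen G.move x y) := ⟨fun a => G.transGen_irrefl a⟩
  exact Finite.wellFounded_of_trans_of_irrefl _

/-- Induction from the end nodes upwards. -/
theorem treeInduction {P : G.Node → Prop} (h : ∀ x, (∀ y, G.move x y → P y) → P x) (x : G.Node) :
    P x :=
  G.wf_child.induction x fun x ih => h x fun y hy => ih y (.single hy)

/-! ### Numerical ranks -/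

theorem le_refl' (i : Fin k) {u : G.Node} (hu : G.IsEnd u) : G.le i u u := by
  rcases G.le_total i u u hu hu with h | h <;> exact h

/-- The number of end nodes that are strictly worse for player `i`. -/
noncomputable def rk (i : Fin k) (u : G.Node) : ℕ := {v : G.Node | G.IsEnd v ∧ G.lt i v u}.ncard

theorem le_iff_rk (i : Fin k) {u v : G.Node} (hu : G.IsEnd u) (hv : G.IsEnd v) :
    G.le i u v ↔ G.rk i u ≤ G.rk i v := by
  have := G.finite
  constructor
  · intro h
    refine Set.ncard_le_ncard ?_ (Set.toFinite _)
    rintro w ⟨hw, h1, h2⟩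
    exact ⟨hw, G.le_trans i _ _ _ hw hu hv h1 h, fun h3 => h2 (G.le_trans i _ _ _ hu hv hw h h3)⟩
  · intro h
    by_contra hn
    have hvu : G.le i v u := (G.le_total i u v hu hv).resolve_left hn
    refine absurd h (not_le.2 (Set.ncard_lt_ncard ?_ (Set.toFinite _)))
    refine (Set.ssubset_iff_of_subset ?_).2 ⟨v, ⟨hv, hvu, hn⟩, fun h3 => h3.2.2 (G.le_refl' i hv)⟩
    rintro w ⟨hw, h1, h2⟩
    exact ⟨hw, G.le_trans i _ _ _ hw hv hu h1 hvu, fun h3 => h2 (G.le_trans i _ _ _ hv hu hw hvu h3)⟩

theorem lt_iff_rk (i : Fin k) {u v : G.Node} (hu : G.IsEnd u) (hv : G.IsEnd v) :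
    G.lt i u v ↔ G.rk i u < G.rk i v := by
  unfold lt
  rw [G.le_iff_rk i hu hv, G.le_iff_rk i hv hu]
  omega

/-! ### Outcomes -/

/-- `G.Out a x u`: the end node `u` is reachable from `x` by the relation `a`. -/
def Out (a : G.Node → G.Node → Prop) (x u : G.Node) : Prop := G.IsEnd u ∧ ReflTransGen a x u

theorem dominated_iff (a : G.Node → G.Node → Prop) (i : Fin k) (y z : G.Node) :
    G.Dominated a i y z ↔ ∀ u v, G.Out a y u → G.Out a z v → G.rk i u < G.rk i v := by
  constructor
  · intro h u v hu hv
    exact (G.lt_iff_rk i hu.1 hv.1).1 (h u v hu.1 hv.1 hu.2 hv.2)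
  · intro h u v hu hv h1 h2
    exact (G.lt_iff_rk i hu hv).2 (h u v ⟨hu, h1⟩ ⟨hv, h2⟩)

theorem out_mono {a b : G.Node → G.Node → Prop} (h : ∀ x y, a x y → b x y) {x u : G.Node}
    (hu : G.Out a x u) : G.Out b x u :=
  ⟨hu.1, ReflTransGen.mono h _ _ hu.2⟩

theorem dominated_anti {a b : G.Node → G.Node → Prop} (h : ∀ x y, a x y → b x y) {i : Fin k}
    {y z : G.Node} (hd : G.Dominated b i y z) : G.Dominated a i y z := by
  rw [dominated_iff] at *
  intro u v hu hv
  exact hd u v (G.out_mono h hu) (G.out_mono h hv)

/-! ### Stages -/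

theorem active_of_succ {n : ℕ} {x y : G.Node} (h : G.active (n + 1) x y) : G.active n x y := h.1

theorem active_antitone {m n : ℕ} (hmn : m ≤ n) {x y : G.Node} (h : G.active n x y) :
    G.active m x y := by
  induction hmn with
  | refl => exact h
  | step _ ih => exact ih h.1

theorem active_le_move {n : ℕ} {x y : G.Node} (h : G.active n x y) : G.move x y :=
  G.active_antitone (Nat.zero_le n) h

theorem best_le_move {x y : G.Node} (h : G.best x y) : G.move x y := h 0

theorem exists_stable : ∃ N, ∀ x y, G.active N x y → G.best x y := by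
  have := G.finite
  classical
  have h : ∀ p : G.Node × G.Node, ∃ n, G.active n p.1 p.2 → G.best p.1 p.2 := by
    intro p
    by_cases hb : G.best p.1 p.2
    · exact ⟨0, fun _ => hb⟩
    · unfold best at hb
      push Not at hb
      obtain ⟨n, hn⟩ := hb
      exact ⟨n, fun h => (hn h).elim⟩
  choose f hf using h
  obtain ⟨N, hN⟩ := (Set.finite_range f).bddAbove
  refine ⟨N, fun x y hxy => hf (x, y) (G.active_antitone (hN ⟨(x, y), rfl⟩) hxy)⟩

/-- The worst rank among the outcomes. -/
noncomputable def worst (i : Fin k) (y : G.Node) : ℕ := sInf {r | ∃ u, G.Out G.best y u ∧ G.rk i u = r}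

theorem worst_mem (i : Fin k) {y : G.Node} (h : ∃ u, G.Out G.best y u) :
    ∃ u, G.Out G.best y u ∧ G.rk i u = G.worst i y := by
  obtain ⟨u, hu⟩ := h
  exact Nat.sInf_mem (s := {r | ∃ u, G.Out G.best y u ∧ G.rk i u = r}) ⟨_, u, hu, rfl⟩

theorem worst_le (i : Fin k) {y u : G.Node} (h : G.Out G.best y u) : G.worst i y ≤ G.rk i u :=
  Nat.sInf_le ⟨u, h, rfl⟩

theorem exists_max_child {x : G.Node} (hx : ¬ G.IsEnd x)
    (ih : ∀ y, G.move x y → ∃ u, G.Out G.best y u) :
    ∃ z, G.best x z ∧ ∀ y, G.move x y → G.worst (G.turn x) y ≤ G.worst (G.turn x) z := by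
  have := G.finite
  unfold IsEnd at hx
  push Not at hx
  obtain ⟨w, hw⟩ := hx
  obtain ⟨z, hz, hmax⟩ := Set.exists_max_image {y | G.move x y} (G.worst (G.turn x))
    (Set.toFinite _) ⟨w, hw⟩
  refine ⟨z, ?_, hmax⟩
  intro n
  induction n with
  | zero => exact hz
  | succ n ihn =>
    refine ⟨ihn, ?_⟩
    rintro ⟨y, _, hy, hd⟩
    have hd' := G.dominated_anti (a := G.best) (fun a b h => h n) hd
    rw [dominated_iff] at hd'
    have hmy := G.active_le_move hy
    obtain ⟨u, hu, hur⟩ := G.worst_mem (G.turn x) (ih z hz)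
    obtain ⟨v, hv, hvr⟩ := G.worst_mem (G.turn x) (ih y hmy)
    have h1 := hd' u v hu hv
    have h2 := hmax y hmy
    omega

theorem exists_out (x : G.Node) : ∃ u, G.Out G.best x u := by
  induction x using G.treeInduction with
  | h x ih =>
    by_cases hx : G.IsEnd x
    · exact ⟨x, hx, .refl⟩
    · obtain ⟨z, hz, _⟩ := G.exists_max_child hx ih
      obtain ⟨u, hu⟩ := ih z (G.best_le_move hz)
      exact ⟨u, hu.1, ReflTransGen.head hz hu.2⟩

theorem exists_best {x : G.Node} (hx : ¬ G.IsEnd x) : ∃ z, G.best x z := by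
  obtain ⟨z, hz, _⟩ := G.exists_max_child hx (fun y _ => G.exists_out y)
  exact ⟨z, hz⟩

/-- The local characterisation of backward induction moves. -/
theorem best_iff (x y : G.Node) :
    G.best x y ↔ G.move x y ∧ ∀ z, G.move x z → ¬ G.Dominated G.best (G.turn x) y z := by
  constructor
  · intro h
    refine ⟨G.best_le_move h, fun z hz hd => ?_⟩
    obtain ⟨N, hN⟩ := G.exists_stable
    have hNe : G.active N = G.best := by
      funext a b
      exact propext ⟨hN a b, fun h => h N⟩
    obtain ⟨z', hz', hmax⟩ := G.exists_max_child (fun hx => hx y (G.best_le_move h))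
      (fun y _ => G.exists_out y)
    have h1 := h (N + 1)
    refine h1.2 ⟨z', ?_, ?_, ?_⟩
    · rintro rfl
      rw [dominated_iff] at hd
      obtain ⟨u, hu, hur⟩ := G.worst_mem (G.turn x) (G.exists_out z')
      obtain ⟨v, hv, hvr⟩ := G.worst_mem (G.turn x) (G.exists_out z)
      have := hd u v hu hv
      have := hmax z hz
      omega
    · rw [hNe]; exact hz'
    · rw [hNe]
      rw [dominated_iff] at *
      intro u v hu hv
      obtain ⟨w, hw, hwr⟩ := G.worst_mem (G.turn x) (G.exists_out z)
      have h2 := hd u w hu hw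
      have h3 := hmax z hz
      have h4 := G.worst_le (G.turn x) hv
      omega
  · rintro ⟨hm, h⟩ n
    induction n with
    | zero => exact hm
    | succ n ihn =>
      refine ⟨ihn, ?_⟩
      rintro ⟨z, _, hz, hd⟩
      exact h z (G.active_le_move hz) (G.dominated_anti (fun a b h => h n) hd)

/-- A best child is not dominated by any child, and any other child is dominated by a best child. -/
theorem exists_best_dominating {x y : G.Node} (hm : G.move x y) (hb : ¬ G.best x y) :
    ∃ z, G.best x z ∧ G.Dominated G.best (G.turn x) y z := by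
  rw [best_iff] at hb
  push Not at hb
  obtain ⟨z, hz, hd⟩ := hb hm
  obtain ⟨z', hz', hmax⟩ := G.exists_max_child (fun hx => hx y hm)
      (fun y _ => G.exists_out y)
  refine ⟨z', hz', ?_⟩
  rw [dominated_iff] at *
  intro u v hu hv
  obtain ⟨w, hw, hwr⟩ := G.worst_mem (G.turn x) (G.exists_out z)
  have h2 := hd u w hu hw
  have h3 := hmax z hz
  have h4 := G.worst_le (G.turn x) hv
  omega

theorem reflTransGen_congr {a b : G.Node → G.Node → Prop} (ha : ∀ x y, a x y → G.move x y)
    {y : G.Node}
    (h : ∀ x, ReflTransGen G.move y x → ∀ z, a x z → b x z) {u : G.Node}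
    (hu : ReflTransGen a y u) : ReflTransGen b y u ∧ ReflTransGen G.move y u := by
  induction hu with
  | refl => exact ⟨.refl, .refl⟩
  | tail _ h2 ih => exact ⟨ih.1.tail (h _ ih.2 _ h2), ih.2.tail (ha _ _ h2)⟩

/-- The local characterisation determines the backward induction moves. -/
theorem eq_best {sig : G.Node → G.Node → Prop}
    (h : ∀ x y, sig x y ↔ G.move x y ∧ ∀ z, G.move x z → ¬ G.Dominated sig (G.turn x) y z) :
    sig = G.best := by
  have key : ∀ x x', ReflTransGen G.move x x' → ∀ y, sig x' y ↔ G.best x' y := by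
    intro x
    induction x using G.treeInduction with
    | h x ih =>
      intro x' hx'
      rcases ReflTransGen.cases_head hx' with rfl | ⟨c, hc, hcx⟩
      · intro y
        rw [h, best_iff]
        have hout : ∀ c, G.move x c → ∀ u, G.Out sig c u ↔ G.Out G.best c u := by
          intro c hc u
          constructor
          · intro hu
            exact ⟨hu.1, (G.reflTransGen_congr (fun a b hab => ((h a b).1 hab).1)
              (fun a ha b hab => (ih c hc a ha b).1 hab) hu.2).1⟩
          · intro hu
            exact ⟨hu.1, (G.reflTransGen_congr (fun a b hab => G.best_le_move hab)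
              (fun a ha b hab => (ih c hc a ha b).2 hab) hu.2).1⟩
        refine and_congr_right fun hxy => forall_congr' fun z => imp_congr_right fun hz =>
          not_congr ?_
        rw [dominated_iff, dominated_iff]
        refine forall_congr' fun u => forall_congr' fun v => ?_
        rw [hout y hxy, hout z hz]
      · exact ih c hc x' hcx
  funext x y
  exact propext (key x x .refl y)

end GameTree

end Pool.Agent.Helper97.BestAction
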