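import Mathlib

/-!
# Finite game trees, relational Backward Induction and the modal language of best action

This file contains all definitions used in the statement: formulas over `k` players, finite game
trees, the relation `best` produced by relational Backward Induction, truth, validity, and the
Goedel numbering of formulas (a bijection with the natural numbers).
-/

namespace Pool.Agent.Helper97.BestAction

open Relation

/-- The accessibility relations of the language for `k` players: all moves, the transitive closure
of the moves, the backward induction moves, their reflexive transitive closure, the moves of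
player `i`, and the preference relation of player `i` on end nodes. -/
inductive Rel (k : ℕ) where
  | move : Rel k
  | movePlus : Rel k
  | best : Rel k
  | bestStar : Rel k
  | moveOf (i : Fin k) : Rel k
  | pref (i : Fin k) : Rel k

/-- Formulas of the language for `k` players. Proposition letters are indexed by natural numbers;
`endNode` is the constant that holds exactly at end nodes, `turn i` the constant that holds at the
non-end nodes with turn label `i`, and `dia r φ` is the diamond of the relation `r`. -/
inductive Formula (k : ℕ) where
  | letter (p : ℕ) : Formula k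
  | endNode : Formula k
  | turn (i : Fin k) : Formula k
  | neg (φ : Formula k) : Formula k
  | and (φ ψ : Formula k) : Formula k
  | dia (r : Rel k) (φ : Formula k) : Formula k

/-- The box of the relation `r`, as the dual of the diamond. -/
def Formula.box {k : ℕ} (r : Rel k) (φ : Formula k) : Formula k :=
  .neg (.dia r (.neg φ))

/-- A finite game tree for `k` players: a finite rooted tree (`move x y` says that `y` is a child
of `x`), a turn label (only its values at non-end nodes matter), and for each player `i` a relation
`le i` (only its restriction to end nodes matters), which is a total preorder on the end nodes. -/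
structure GameTree (k : ℕ) where
  /-- the nodes -/
  Node : Type
  /-- there are finitely many nodes -/
  finite : Finite Node
  /-- the root -/
  root : Node
  /-- the moves, from parent to child -/
  move : Node → Node → Prop
  /-- the root has no parent -/
  root_no_parent : ∀ x, ¬ move x root
  /-- parents are unique -/
  parent_unique : ∀ x y z, move x z → move y z → x = y
  /-- every node is reachable from the root -/
  reachable : ∀ x, ReflTransGen move root x
  /-- the turn label (it matters only at non-end nodes) -/
  turn : Node → Fin k
  /-- the preference relation of each player (it matters only between end nodes) -/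
  le : Fin k → Node → Node → Prop
  /-- preferences are total on end nodes -/
  le_total : ∀ i u v, (∀ w, ¬ move u w) → (∀ w, ¬ move v w) → le i u v ∨ le i v u
  /-- preferences are transitive on end nodes -/
  le_trans : ∀ i u v w, (∀ x, ¬ move u x) → (∀ x, ¬ move v x) → (∀ x, ¬ move w x) →
    le i u v → le i v w → le i u w

namespace GameTree

variable {k : ℕ}

/-- End nodes are the nodes without children. -/
def IsEnd (G : GameTree k) (u : G.Node) : Prop := ∀ w, ¬ G.move u w

/-- Strict preference. -/
def lt (G : GameTree k) (i : Fin k) (u v : G.Node) : Prop := G.le i u v ∧ ¬ G.le i v u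

/-- `G.Dominated a i y z`: with respect to the active moves `a`, every end node reachable from `z`
is strictly better for player `i` than every end node reachable from `y`. -/
def Dominated (G : GameTree k) (a : G.Node → G.Node → Prop) (i : Fin k) (y z : G.Node) : Prop :=
  ∀ u v, G.IsEnd u → G.IsEnd v → ReflTransGen a y u → ReflTransGen a z v → G.lt i u v

/-- `G.active n x y`: the move from `x` to `y` is still active after `n` stages of relational
Backward Induction. -/
def active (G : GameTree k) : ℕ → G.Node → G.Node → Prop
  | 0 => G.move
  | n + 1 => fun x y => G.active n x y ∧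
      ¬ ∃ z, z ≠ y ∧ G.active n x z ∧ G.Dominated (G.active n) (G.turn x) y z

/-- The backward induction moves: those that stay active at all stages. -/
def best (G : GameTree k) (x y : G.Node) : Prop := ∀ n, G.active n x y

/-- The interpretation of the relation symbols in a game tree. -/
def rel (G : GameTree k) : Rel k → G.Node → G.Node → Prop
  | .move, x, y => G.move x y
  | .movePlus, x, y => TransGen G.move x y
  | .best, x, y => G.best x y
  | .bestStar, x, y => ReflTransGen G.best x y
  | .moveOf i, x, y => G.move x y ∧ G.turn x = i
  | .pref i, x, y => G.IsEnd x ∧ G.IsEnd y ∧ G.le i x y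

/-- Truth of a formula at a node of a game tree, under a valuation of the proposition letters. -/
def Sat (G : GameTree k) (val : ℕ → G.Node → Prop) : Formula k → G.Node → Prop
  | .letter p, x => val p x
  | .endNode, x => G.IsEnd x
  | .turn i, x => ¬ G.IsEnd x ∧ G.turn x = i
  | .neg φ, x => ¬ Sat G val φ x
  | .and φ ψ, x => Sat G val φ x ∧ Sat G val ψ x
  | .dia r φ, x => ∃ y, G.rel r x y ∧ Sat G val φ y

end GameTree

/-- A formula is valid if it is true at every node of every finite game tree under every
valuation. -/
def Valid {k : ℕ} (φ : Formula k) : Prop :=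
  ∀ (G : GameTree k) (val : ℕ → G.Node → Prop) (x : G.Node), G.Sat val φ x

/-! ### Goedel numbering -/

/-- The tag of a relation symbol: a number in `[3, 7 + 2 * k)`. -/
def Rel.tag {k : ℕ} : Rel k → ℕ
  | .move => 3
  | .movePlus => 4
  | .best => 5
  | .bestStar => 6
  | .moveOf i => 7 + i
  | .pref i => 7 + k + i

/-- The Goedel number of a formula. Write `b = k + 1` and `c = 7 + 2 * k`. The constants `endNode`
and `turn i` get the numbers `0` and `1 + i`; all other formulas get `b + (c * q + t)` where the
tag `t < c` tells the outermost construct and `q` codes the immediate constituents. -/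
def Formula.code {k : ℕ} : Formula k → ℕ
  | .endNode => 0
  | .turn i => 1 + i
  | .letter p => k + 1 + ((7 + 2 * k) * p + 0)
  | .neg φ => k + 1 + ((7 + 2 * k) * φ.code + 1)
  | .and φ ψ => k + 1 + ((7 + 2 * k) * Nat.pair φ.code ψ.code + 2)
  | .dia r φ => k + 1 + ((7 + 2 * k) * φ.code + r.tag)

/-- The relation symbol with a given tag. -/
def Rel.ofTag (k t : ℕ) : Rel k :=
  if t = 3 then .move else
  if t = 4 then .movePlus else
  if t = 5 then .best else
  if h : 7 ≤ t ∧ t < 7 + k then .moveOf ⟨t - 7, by omega⟩ else
  if h' : 7 + k ≤ t ∧ t < 7 + 2 * k then .pref ⟨t - (7 + k), by omega⟩ else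
  .bestStar

/-- The formula with a given Goedel number. -/
def Formula.ofCode (k : ℕ) (n : ℕ) : Formula k :=
  if n = 0 then .endNode else
  if h : n - 1 < k then .turn ⟨n - 1, h⟩ else
  if (n - (k + 1)) % (7 + 2 * k) = 0 then .letter ((n - (k + 1)) / (7 + 2 * k)) else
  if (n - (k + 1)) % (7 + 2 * k) = 1 then .neg (Formula.ofCode k ((n - (k + 1)) / (7 + 2 * k))) else
  if (n - (k + 1)) % (7 + 2 * k) = 2 then
    .and (Formula.ofCode k ((n - (k + 1)) / (7 + 2 * k)).unpair.1)
      (Formula.ofCode k ((n - (k + 1)) / (7 + 2 * k)).unpair.2) else
  .dia (Rel.ofTag k ((n - (k + 1)) % (7 + 2 * k)))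
    (Formula.ofCode k ((n - (k + 1)) / (7 + 2 * k)))
termination_by n
decreasing_by
  all_goals
    have h1 : (n - (k + 1)) / (7 + 2 * k) ≤ n - (k + 1) := Nat.div_le_self _ _
    have h2 := Nat.unpair_left_le ((n - (k + 1)) / (7 + 2 * k))
    have h3 := Nat.unpair_right_le ((n - (k + 1)) / (7 + 2 * k))
    omega

theorem Rel.tag_ge {k : ℕ} (r : Rel k) : 3 ≤ r.tag := by
  cases r <;> simp [Rel.tag] <;> omega

theorem Rel.tag_lt {k : ℕ} (r : Rel k) : r.tag < 7 + 2 * k := by
  cases r <;> simp [Rel.tag] <;> omega

theorem Rel.ofTag_tag {k : ℕ} (r : Rel k) : Rel.ofTag k r.tag = r := by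
  cases r with
  | move => simp [Rel.tag, Rel.ofTag]
  | movePlus => simp [Rel.tag, Rel.ofTag]
  | best => simp [Rel.tag, Rel.ofTag]
  | bestStar =>
    simp only [Rel.tag, Rel.ofTag]
    split_ifs <;> first | rfl | (exfalso; omega)
  | moveOf i =>
    have := i.2
    simp only [Rel.tag, Rel.ofTag]
    split_ifs <;> first | (exfalso; omega) | (congr 1; apply Fin.ext; simp)
  | pref i =>
    have := i.2
    simp only [Rel.tag, Rel.ofTag]
    split_ifs <;> first | (exfalso; omega) | (congr 1; apply Fin.ext; simp)

theorem Rel.tag_ofTag {k t : ℕ} (h1 : 3 ≤ t) (h2 : t < 7 + 2 * k) : (Rel.ofTag k t).tag = t := by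
  unfold Rel.ofTag
  split_ifs <;> simp [Rel.tag] <;> omega

theorem divmod_aux {c q t : ℕ} (ht : t < c) : (c * q + t) / c = q ∧ (c * q + t) % c = t := by
  have hc : 0 < c := by omega
  constructor
  · rw [Nat.mul_add_div hc, Nat.div_eq_of_lt ht, Nat.add_zero]
  · rw [Nat.mul_add_mod, Nat.mod_eq_of_lt ht]

theorem Formula.ofCode_code {k : ℕ} (φ : Formula k) : Formula.ofCode k φ.code = φ := by
  induction φ with
  | endNode => rw [Formula.ofCode]; simp [Formula.code]
  | turn i =>
    rw [Formula.ofCode]
    have := i.2
    simp only [Formula.code]
    split_ifs <;> first | (exfalso; omega) | (congr 1; apply Fin.ext; simp)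
  | letter p =>
    rw [Formula.ofCode]
    have h := divmod_aux (c := 7 + 2 * k) (q := p) (t := 0) (by omega)
    simp only [Formula.code, Nat.add_sub_cancel_left,
      if_neg (show ¬ (k + 1 + ((7 + 2 * k) * p + 0) = 0) by omega),
      dif_neg (show ¬ (k + 1 + ((7 + 2 * k) * p + 0) - 1 < k) by omega), h.1, h.2, if_true]
  | neg φ ih =>
    rw [Formula.ofCode]
    have h := divmod_aux (c := 7 + 2 * k) (q := φ.code) (t := 1) (by omega)
    simp only [Formula.code, Nat.add_sub_cancel_left,
      if_neg (show ¬ (k + 1 + ((7 + 2 * k) * φ.code + 1) = 0) by omega),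
      dif_neg (show ¬ (k + 1 + ((7 + 2 * k) * φ.code + 1) - 1 < k) by omega), h.1, h.2, if_true,
      if_neg (show ¬ (1 : ℕ) = 0 by omega), ih]
  | and φ ψ ih1 ih2 =>
    rw [Formula.ofCode]
    have h := divmod_aux (c := 7 + 2 * k) (q := Nat.pair φ.code ψ.code) (t := 2) (by omega)
    simp only [Formula.code, Nat.add_sub_cancel_left,
      if_neg (show ¬ (k + 1 + ((7 + 2 * k) * Nat.pair φ.code ψ.code + 2) = 0) by omega),
      dif_neg (show ¬ (k + 1 + ((7 + 2 * k) * Nat.pair φ.code ψ.code + 2) - 1 < k) by omega),
      h.1, h.2, if_true,
      if_neg (show ¬ (2 : ℕ) = 0 by omega), if_neg (show ¬ (2 : ℕ) = 1 by omega), Nat.unpair_pair,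
      ih1, ih2]
  | dia r φ ih =>
    rw [Formula.ofCode]
    have h3 := r.tag_ge
    have h := divmod_aux (c := 7 + 2 * k) (q := φ.code) (t := r.tag) r.tag_lt
    simp only [Formula.code, Nat.add_sub_cancel_left,
      if_neg (show ¬ (k + 1 + ((7 + 2 * k) * φ.code + r.tag) = 0) by omega),
      dif_neg (show ¬ (k + 1 + ((7 + 2 * k) * φ.code + r.tag) - 1 < k) by omega), h.1, h.2,
      if_neg (show ¬ r.tag = 0 by omega), if_neg (show ¬ r.tag = 1 by omega),
      if_neg (show ¬ r.tag = 2 by omega), ih, Rel.ofTag_tag]

theorem Formula.code_ofCode {k : ℕ} (n : ℕ) : (Formula.ofCode k n).code = n := by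
  induction n using Nat.strong_induction_on with
  | _ n ih =>
    rw [Formula.ofCode]
    by_cases h0 : n = 0
    · simp [h0, Formula.code]
    by_cases h1 : n - 1 < k
    · simp only [if_neg h0, dif_pos h1, Formula.code]; omega
    rw [if_neg h0, dif_neg h1]
    have hd : (n - (k + 1)) / (7 + 2 * k) ≤ n - (k + 1) := Nat.div_le_self _ _
    have hq := Nat.unpair_left_le ((n - (k + 1)) / (7 + 2 * k))
    have hq' := Nat.unpair_right_le ((n - (k + 1)) / (7 + 2 * k))
    have hlt : (n - (k + 1)) % (7 + 2 * k) < 7 + 2 * k := Nat.mod_lt _ (by omega)
    have hdm := Nat.div_add_mod (n - (k + 1)) (7 + 2 * k)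
    split_ifs with h2 h3 h4
    · simp only [Formula.code]; omega
    · simp only [Formula.code]; rw [ih _ (by omega)]; omega
    · simp only [Formula.code]
      rw [ih _ (by omega), ih _ (by omega), Nat.pair_unpair]; omega
    · simp only [Formula.code]
      rw [ih _ (by omega), Rel.tag_ofTag (by omega) hlt]; omega

/-- The Goedel numbering of formulas is a bijection with the natural numbers. -/
def Formula.equivNat (k : ℕ) : Formula k ≃ ℕ where
  toFun := Formula.code
  invFun := Formula.ofCode k
  left_inv := Formula.ofCode_code
  right_inv := Formula.code_ofCode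

/-- Computability notions for sets of formulas refer to the Goedel numbering `Formula.code`. -/
instance (k : ℕ) : Denumerable (Formula k) := Denumerable.mk' (Formula.equivNat k)

end Pool.Agent.Helper97.BestAction
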