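import Pool.Agent.Helper97.BestAction.Auto
import Pool.Agent.Helper97.BestAction.Defs

/-!
# Masks, and the local conditions in terms of a family of children
-/

namespace Pool.Agent.Helper97.BestAction

theorem exists_dig (b : ℕ) (hb : 0 < b) (L : ℕ) (f : ℕ → ℕ) (hf : ∀ i < L, f i < b) :
    ∃ q < b ^ L, ∀ i < L, dig b q i = f i := by
  induction L with
  | zero => exact ⟨0, by simp, fun i hi => absurd hi (by omega)⟩
  | succ L ih =>
    obtain ⟨q, hq, hd⟩ := ih fun i hi => hf i (by omega)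
    have hfL : f L < b := hf L (by omega)
    refine ⟨q + f L * b ^ L, ?_, ?_⟩
    · calc q + f L * b ^ L < b ^ L + f L * b ^ L := by omega
        _ = (f L + 1) * b ^ L := by ring
        _ ≤ b * b ^ L := Nat.mul_le_mul_right _ hfL
        _ = b ^ (L + 1) := by ring
    · intro i hi
      have hbi : 0 < b ^ i := Nat.pow_pos hb
      rcases Nat.lt_succ_iff_lt_or_eq.1 hi with h | h
      · rw [← hd i h]
        unfold dig
        obtain ⟨e, rfl⟩ : ∃ e, L = i + (e + 1) := ⟨L - i - 1, by omega⟩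
        have h1 : q + f (i + (e + 1)) * b ^ (i + (e + 1)) =
            q + b ^ i * (b * (f (i + (e + 1)) * b ^ e)) := by ring
        rw [h1, Nat.add_mul_div_left _ _ hbi, Nat.add_mul_mod_self_left]
      · subst h
        unfold dig
        have h1 : q + f i * b ^ i = q + b ^ i * f i := by ring
        rw [h1, Nat.add_mul_div_left _ _ hbi, Nat.div_eq_of_lt hq, Nat.zero_add,
          Nat.mod_eq_of_lt hfL]

theorem exists_mask (L : ℕ) (p : ℕ → Prop) : ∃ q < 2 ^ L, ∀ i < L, (bit q i ↔ p i) := by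
  classical
  obtain ⟨q, hq, h⟩ := exists_dig 2 (by norm_num) L (fun i => if p i then 1 else 0)
    (fun i _ => by split_ifs <;> omega)
  refine ⟨q, hq, fun i hi => ?_⟩
  unfold bit
  rw [h i hi]
  by_cases hp : p i <;> simp [hp]

theorem le_pb_aux {k M a b : ℕ} (ha : a ≤ k + cb M) (hb : b ≤ k + cb M) :
    Nat.pair a b < pb k M := by
  have h := Nat.pair_lt_max_add_one_sq a b
  have h2 : max a b + 1 ≤ k + cb M + 1 := by omega
  calc Nat.pair a b < (max a b + 1) ^ 2 := h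
    _ ≤ (k + cb M + 1) ^ 2 := Nat.pow_le_pow_left h2 2

theorem lt_pb {k M m : ℕ} (hm : m < M) : m < pb k M := by
  have h : k + cb M + 1 ≤ (k + cb M + 1) ^ 2 := Nat.le_self_pow (by norm_num) _
  unfold pb
  unfold cb at h ⊢
  omega

theorem fF_lt {k M m : ℕ} (hm : m < M) : 3 * m < fb k M := by
  have := lt_pb (k := k) hm
  unfold fb; omega

theorem fC_lt {k M j v : ℕ} (hj : j < k) (hv : v < cb M) : 3 * Nat.pair j v + 1 < fb k M := by
  have := le_pb_aux (k := k) (M := M) (a := j) (b := v) (by omega) (by omega)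
  unfold fb; omega

theorem fW_lt {k M j m : ℕ} (hj : j < k) (hm : m < M) : 3 * Nat.pair j m + 2 < fb k M := by
  have := le_pb_aux (k := k) (M := M) (a := j) (b := m) (by omega) (by unfold cb; omega)
  unfold fb; omega

/-- The local condition at an inner node, for a family of children `V`: `mv` says which elements are
children, `bs` which of them are best children, and `st` gives their states. -/
def NodeSem (k M : ℕ) {V : Type} (mv bs : V → Prop) (st : V → ℕ) (τ : ℕ) : Prop :=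
  BoolOK k M τ ∧ ¬ fF τ 0 ∧
  (∃ y, bs y) ∧
  (∃ i < k, (∀ j < k, (fF τ (1 + j) ↔ j = i)) ∧
    (∀ y, bs y → ∀ z, bs z →
      ∃ v < cb M, ∃ v' < cb M, fC (st y) i v ∧ fC (st z) i v' ∧ v' ≤ v) ∧
    (∀ y, mv y → ¬ bs y → ∃ z, bs z ∧
      ∀ v < cb M, ∀ v' < cb M, fC (st y) i v → fC (st z) i v' → v < v' ∨ (v = v' ∧ v % 2 = 1))) ∧
  (∀ m < M, cDia k 3 m < M → (fF τ (cDia k 3 m) ↔ ∃ y, mv y ∧ fF (st y) m)) ∧
  (∀ m < M, cDia k 4 m < M → (fF τ (cDia k 4 m) ↔
    ∃ y, mv y ∧ (fF (st y) m ∨ fF (st y) (cDia k 4 m)))) ∧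
  (∀ m < M, cDia k 5 m < M → (fF τ (cDia k 5 m) ↔ ∃ y, bs y ∧ fF (st y) m)) ∧
  (∀ m < M, cDia k 6 m < M → (fF τ (cDia k 6 m) ↔
    fF τ m ∨ ∃ y, bs y ∧ fF (st y) (cDia k 6 m))) ∧
  (∀ m < M, ∀ j < k, cDia k (7 + j) m < M → (fF τ (cDia k (7 + j) m) ↔
    fF τ (1 + j) ∧ ∃ y, mv y ∧ fF (st y) m)) ∧
  (∀ m < M, ∀ j < k, cDia k (7 + k + j) m < M → ¬ fF τ (cDia k (7 + k + j) m)) ∧
  (∀ j < k, ∀ v < cb M, (fC τ j v ↔ ∃ y, bs y ∧ fC (st y) j v)) ∧
  (∀ j < k, ∀ m < M, (fW τ j m ↔ ∃ y, mv y ∧ fW (st y) j m))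

theorem nodeOK_iff {k M K K' τ : ℕ} {V : Type} {mv bs : V → Prop} {st : V → ℕ}
    (hle : ∀ y, bs y → mv y) (hst : ∀ y, st y < sb k M)
    (hK' : ∀ σ < sb k M, (bit K' σ ↔ ∃ y, bs y ∧ st y = σ))
    (hK : ∀ σ < sb k M, (bit K σ ↔ ∃ y, mv y ∧ ¬ bs y ∧ st y = σ)) :
    NodeOK k M K K' τ ↔ NodeSem k M mv bs st τ := by
  have e1 : ∀ P : ℕ → Prop, (∃ σ < sb k M, bit K' σ ∧ P σ) ↔ ∃ y, bs y ∧ P (st y) := by
    intro P
    constructor
    · rintro ⟨σ, hσ, h1, h2⟩
      obtain ⟨y, hy, rfl⟩ := (hK' σ hσ).1 h1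
      exact ⟨y, hy, h2⟩
    · rintro ⟨y, hy, h⟩
      exact ⟨st y, hst y, (hK' _ (hst y)).2 ⟨y, hy, rfl⟩, h⟩
  have e1' : (∃ σ < sb k M, bit K' σ) ↔ ∃ y, bs y := by
    have := e1 fun _ => True
    simpa using this
  have e2 : ∀ P : ℕ → Prop, (∃ σ < sb k M, (bit K σ ∨ bit K' σ) ∧ P σ) ↔
      ∃ y, mv y ∧ P (st y) := by
    intro P
    constructor
    · rintro ⟨σ, hσ, h1 | h1, h2⟩
      · obtain ⟨y, hy, _, rfl⟩ := (hK σ hσ).1 h1
        exact ⟨y, hy, h2⟩
      · obtain ⟨y, hy, rfl⟩ := (hK' σ hσ).1 h1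
        exact ⟨y, hle y hy, h2⟩
    · rintro ⟨y, hy, h⟩
      refine ⟨st y, hst y, ?_, h⟩
      by_cases hb : bs y
      · exact Or.inr ((hK' _ (hst y)).2 ⟨y, hb, rfl⟩)
      · exact Or.inl ((hK _ (hst y)).2 ⟨y, hy, hb, rfl⟩)
  have e3 : ∀ P : ℕ → Prop, (∀ σ < sb k M, bit K' σ → P σ) ↔ ∀ y, bs y → P (st y) := by
    intro P
    constructor
    · intro h y hy
      exact h _ (hst y) ((hK' _ (hst y)).2 ⟨y, hy, rfl⟩)
    · intro h σ hσ h1
      obtain ⟨y, hy, rfl⟩ := (hK' σ hσ).1 h1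
      exact h y hy
  have e4 : ∀ P : ℕ → Prop, (∀ σ < sb k M, bit K σ → P σ) ↔ ∀ y, mv y → ¬ bs y → P (st y) := by
    intro P
    constructor
    · intro h y hy hb
      exact h _ (hst y) ((hK _ (hst y)).2 ⟨y, hy, hb, rfl⟩)
    · intro h σ hσ h1
      obtain ⟨y, hy, hb, rfl⟩ := (hK σ hσ).1 h1
      exact h y hy hb
  unfold NodeOK NodeSem
  simp only [e1, e1', e2, e3, e4]

/-! ### Goedel numbers of compound formulas -/

theorem ofCode_neg (k m : ℕ) : Formula.ofCode k (cNeg k m) = .neg (Formula.ofCode k m) := by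
  have h : (Formula.neg (Formula.ofCode k m)).code = cNeg k m := by
    simp [Formula.code, Formula.code_ofCode, cNeg]
  rw [← h, Formula.ofCode_code]

theorem ofCode_and (k m m' : ℕ) :
    Formula.ofCode k (cAnd k m m') = .and (Formula.ofCode k m) (Formula.ofCode k m') := by
  have h : (Formula.and (Formula.ofCode k m) (Formula.ofCode k m')).code = cAnd k m m' := by
    simp [Formula.code, Formula.code_ofCode, cAnd]
  rw [← h, Formula.ofCode_code]

theorem ofCode_dia (k : ℕ) (r : Rel k) (m : ℕ) :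
    Formula.ofCode k (cDia k r.tag m) = .dia r (Formula.ofCode k m) := by
  have h : (Formula.dia r (Formula.ofCode k m)).code = cDia k r.tag m := by
    simp [Formula.code, Formula.code_ofCode, cDia]
  rw [← h, Formula.ofCode_code]

theorem ofCode_zero (k : ℕ) : Formula.ofCode k 0 = .endNode := by
  rw [Formula.ofCode]; simp

theorem ofCode_turn (k : ℕ) (j : Fin k) : Formula.ofCode k (1 + j) = .turn j := by
  have h : (Formula.turn j).code = 1 + (j : ℕ) := by simp [Formula.code]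
  rw [← h, Formula.ofCode_code]

end Pool.Agent.Helper97.BestAction
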