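import Pool.Agent.Helper97.BestAction.BI
import Pool.Agent.Helper97.BestAction.Sem

/-!
# From a refuting game tree to the arithmetical predicate
-/

namespace Pool.Agent.Helper97.BestAction

open Relation

/-! ### Cells -/

/-- The cell of the rank `r` with respect to the finite set `Θ` of thresholds: even for the
thresholds, odd for the open cells between them. -/
noncomputable def cellOf (Θ : Finset ℕ) (r : ℕ) : ℕ :=
  2 * (Θ.filter (· < r)).card + if r ∈ Θ then 2 else 1

theorem cellOf_pos (Θ : Finset ℕ) (r : ℕ) : 1 ≤ cellOf Θ r := by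
  unfold cellOf; split_ifs <;> omega

theorem cellOf_lt {Θ : Finset ℕ} {t r : ℕ} (ht : t ∈ Θ) (h : t < r) :
    cellOf Θ t < cellOf Θ r := by
  have h1 : (Θ.filter (· < t)).card < (Θ.filter (· < r)).card := by
    apply Finset.card_lt_card
    refine (Finset.ssubset_iff_of_subset ?_).2 ⟨t, ?_, ?_⟩
    · intro a ha
      rw [Finset.mem_filter] at *
      exact ⟨ha.1, ha.2.trans h⟩
    · rw [Finset.mem_filter]; exact ⟨ht, h⟩
    · rw [Finset.mem_filter]; simp
  unfold cellOf
  rw [if_pos ht]
  split_ifs <;> omega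

theorem cellOf_mono {Θ : Finset ℕ} {r r' : ℕ} (h : r ≤ r') : cellOf Θ r ≤ cellOf Θ r' := by
  rcases h.eq_or_lt with rfl | h
  · exact le_rfl
  by_cases hr : r ∈ Θ
  · exact (cellOf_lt hr h).le
  · have h1 : (Θ.filter (· < r)).card ≤ (Θ.filter (· < r')).card := by
      apply Finset.card_le_card
      intro a ha
      rw [Finset.mem_filter] at *
      exact ⟨ha.1, ha.2.trans h⟩
    unfold cellOf
    rw [if_neg hr]
    split_ifs <;> omega

theorem cellOf_le_iff {Θ : Finset ℕ} {t r : ℕ} (ht : t ∈ Θ) :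
    cellOf Θ r ≤ cellOf Θ t ↔ r ≤ t := by
  constructor
  · intro h
    by_contra hn
    have := cellOf_lt ht (not_le.1 hn)
    omega
  · exact cellOf_mono

theorem mem_of_cellOf_even {Θ : Finset ℕ} {r : ℕ} (h : cellOf Θ r % 2 ≠ 1) : r ∈ Θ := by
  by_contra hn
  unfold cellOf at h
  rw [if_neg hn] at h
  omega

theorem cellOf_mem_even {Θ : Finset ℕ} {r : ℕ} (h : r ∈ Θ) : cellOf Θ r % 2 = 0 := by
  unfold cellOf
  rw [if_pos h]
  omega

theorem cellOf_le (Θ : Finset ℕ) (r : ℕ) : cellOf Θ r ≤ 2 * Θ.card + 2 := by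
  have h1 : (Θ.filter (· < r)).card ≤ Θ.card := Finset.card_filter_le _ _
  unfold cellOf
  split_ifs <;> omega

section

variable {k : ℕ} (G : GameTree k) (val : ℕ → G.Node → Prop) (M : ℕ)

/-- Formula number `m` is true at `x`. -/
def SatN (m : ℕ) (x : G.Node) : Prop := G.Sat val (Formula.ofCode k m) x

/-- Formula number `m` is true at some end node. -/
def HasEnd (m : ℕ) : Prop := ∃ u, G.IsEnd u ∧ SatN G val m u

/-- The threshold of player `j` and formula number `m`. -/
noncomputable def thr (j : Fin k) (m : ℕ) : ℕ :=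
  sSup {r | ∃ u, G.IsEnd u ∧ SatN G val m u ∧ G.rk j u = r}

theorem thr_bdd (j : Fin k) (m : ℕ) :
    BddAbove {r | ∃ u, G.IsEnd u ∧ SatN G val m u ∧ G.rk j u = r} := by
  have := G.finite
  apply Set.Finite.bddAbove
  exact (Set.finite_range (G.rk j)).subset fun r ⟨u, _, _, h⟩ => ⟨u, h⟩

theorem le_thr (j : Fin k) {m : ℕ} {u : G.Node} (hu : G.IsEnd u) (hs : SatN G val m u) :
    G.rk j u ≤ thr G val j m :=
  le_csSup (thr_bdd G val j m) ⟨u, hu, hs, rfl⟩

theorem thr_mem (j : Fin k) {m : ℕ} (h : HasEnd G val m) :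
    ∃ u, G.IsEnd u ∧ SatN G val m u ∧ G.rk j u = thr G val j m := by
  obtain ⟨u, hu, hs⟩ := h
  exact Nat.sSup_mem (s := {r | ∃ u, G.IsEnd u ∧ SatN G val m u ∧ G.rk j u = r})
    ⟨_, u, hu, hs, rfl⟩ (thr_bdd G val j m)

open Classical in
/-- The set of thresholds of player `j`. -/
noncomputable def Th (j : Fin k) : Finset ℕ :=
  ((Finset.range M).filter fun m => HasEnd G val m).image (thr G val j)

theorem Th_card (j : Fin k) : (Th G val M j).card ≤ M := by
  classical
  unfold Th
  refine Finset.card_image_le.trans ((Finset.card_filter_le _ _).trans ?_)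
  simp

theorem thr_mem_Th (j : Fin k) {m : ℕ} (hm : m < M) (h : HasEnd G val m) :
    thr G val j m ∈ Th G val M j := by
  classical
  unfold Th
  rw [Finset.mem_image]
  exact ⟨m, by simp [hm, h], rfl⟩

/-- The cell of an end node for player `j`. -/
noncomputable def cell (j : Fin k) (u : G.Node) : ℕ := cellOf (Th G val M j) (G.rk j u)

open Classical in
/-- The position of the threshold of player `j` and formula number `m`. -/
noncomputable def pos (j : Fin k) (m : ℕ) : ℕ :=
  if HasEnd G val m then cellOf (Th G val M j) (thr G val j m) else 0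

theorem cell_lt (j : Fin k) (u : G.Node) : cell G val M j u < cb M := by
  have h1 := cellOf_le (Th G val M j) (G.rk j u)
  have h2 := Th_card G val M j
  unfold cell cb
  omega

theorem pos_lt (j : Fin k) (m : ℕ) : pos G val M j m < cb M := by
  have h1 := cellOf_le (Th G val M j) (thr G val j m)
  have h2 := Th_card G val M j
  unfold pos cb
  split_ifs <;> omega

theorem pos_even (j : Fin k) {m : ℕ} (hm : m < M) : pos G val M j m % 2 = 0 := by
  unfold pos
  split_ifs with h
  · exact cellOf_mem_even (thr_mem_Th G val M j hm h)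
  · rfl

theorem cell_le_pos (j : Fin k) {m : ℕ} {u : G.Node} (hu : G.IsEnd u)
    (hs : SatN G val m u) : cell G val M j u ≤ pos G val M j m := by
  unfold pos
  rw [if_pos ⟨u, hu, hs⟩]
  exact cellOf_mono (le_thr G val j hu hs)

theorem sat_pref_iff (j : Fin k) {m : ℕ} (hm : m < M) {u : G.Node} (hu : G.IsEnd u) :
    (∃ y, (G.IsEnd u ∧ G.IsEnd y ∧ G.le j u y) ∧ SatN G val m y) ↔
      cell G val M j u ≤ pos G val M j m := by
  constructor
  · rintro ⟨y, ⟨_, hy, hle⟩, hs⟩
    refine le_trans ?_ (cell_le_pos G val M j hy hs)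
    exact cellOf_mono ((G.le_iff_rk j hu hy).1 hle)
  · intro h
    by_cases hE : HasEnd G val m
    · unfold pos at h
      rw [if_pos hE] at h
      have h1 := (cellOf_le_iff (thr_mem_Th G val M j hm hE)).1 h
      obtain ⟨w, hw, hs, hr⟩ := thr_mem G val j hE
      exact ⟨w, ⟨hu, hw, (G.le_iff_rk j hu hw).2 (by omega)⟩, hs⟩
    · unfold pos at h
      rw [if_neg hE] at h
      have := cellOf_pos (Th G val M j) (G.rk j u)
      unfold cell at h
      omega

theorem pos_wit (j : Fin k) {m : ℕ} (h : pos G val M j m ≠ 0) :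
    ∃ w, G.IsEnd w ∧ SatN G val m w ∧ cell G val M j w = pos G val M j m := by
  by_cases hE : HasEnd G val m
  · obtain ⟨w, hw, hs, hr⟩ := thr_mem G val j hE
    refine ⟨w, hw, hs, ?_⟩
    unfold pos cell
    rw [if_pos hE, hr]
  · unfold pos at h
    rw [if_neg hE] at h
    exact absurd rfl h

/-- The facts at a node. -/
def factP (x : G.Node) (f : ℕ) : Prop :=
  (f % 3 = 0 ∧ SatN G val (f / 3) x) ∨
  (f % 3 = 1 ∧ ∃ j : Fin k, ∃ u, G.Out G.best x u ∧ Nat.pair j (cell G val M j u) = f / 3) ∨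
  (f % 3 = 2 ∧ ∃ j : Fin k, ∃ m, ∃ u, (G.IsEnd u ∧ ReflTransGen G.move x u ∧ SatN G val m u ∧
    cell G val M j u = pos G val M j m) ∧ Nat.pair j m = f / 3)

/-- The state of a node. -/
noncomputable def stt (x : G.Node) : ℕ := (exists_mask (fb k M) (factP G val M x)).choose

theorem stt_lt (x : G.Node) : stt G val M x < sb k M :=
  (exists_mask (fb k M) (factP G val M x)).choose_spec.1

theorem stt_bit (x : G.Node) {f : ℕ} (hf : f < fb k M) :
    bit (stt G val M x) f ↔ factP G val M x f :=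
  (exists_mask (fb k M) (factP G val M x)).choose_spec.2 f hf

theorem fF_stt (x : G.Node) {m : ℕ} (hm : m < M) :
    fF (stt G val M x) m ↔ SatN G val m x := by
  unfold fF
  rw [stt_bit G val M x (fF_lt hm)]
  unfold factP
  have h1 : 3 * m % 3 = 0 := by omega
  have h2 : 3 * m / 3 = m := by omega
  rw [h1, h2]
  simp

theorem fC_stt (x : G.Node) (j : Fin k) {v : ℕ} (hv : v < cb M) :
    fC (stt G val M x) j v ↔ ∃ u, G.Out G.best x u ∧ cell G val M j u = v := by
  unfold fC
  rw [stt_bit G val M x (fC_lt j.2 hv)]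
  unfold factP
  have h1 : (3 * Nat.pair j v + 1) % 3 = 1 := by omega
  have h2 : (3 * Nat.pair j v + 1) / 3 = Nat.pair j v := by omega
  rw [h1, h2]
  constructor
  · rintro (⟨h, _⟩ | ⟨_, j', u, hu, he⟩ | ⟨h, _⟩)
    · omega
    · rw [Nat.pair_eq_pair] at he
      have : j' = j := Fin.ext he.1
      subst this
      exact ⟨u, hu, he.2⟩
    · omega
  · rintro ⟨u, hu, he⟩
    exact Or.inr (Or.inl ⟨rfl, j, u, hu, by rw [he]⟩)

theorem fW_stt (x : G.Node) (j : Fin k) {m : ℕ} (hm : m < M) :
    fW (stt G val M x) j m ↔ ∃ u, G.IsEnd u ∧ ReflTransGen G.move x u ∧ SatN G val m u ∧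
      cell G val M j u = pos G val M j m := by
  unfold fW
  rw [stt_bit G val M x (fW_lt j.2 hm)]
  unfold factP
  have h1 : (3 * Nat.pair j m + 2) % 3 = 2 := by omega
  have h2 : (3 * Nat.pair j m + 2) / 3 = Nat.pair j m := by omega
  rw [h1, h2]
  constructor
  · rintro (⟨h, _⟩ | ⟨h, _⟩ | ⟨_, j', m', u, hu, he⟩)
    · omega
    · omega
    · rw [Nat.pair_eq_pair] at he
      have : j' = j := Fin.ext he.1
      subst this
      obtain rfl := he.2
      exact ⟨u, hu⟩
  · rintro ⟨u, hu⟩
    exact Or.inr (Or.inr ⟨rfl, j, m, u, hu, rfl⟩)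

theorem boolOK_stt (x : G.Node) : BoolOK k M (stt G val M x) := by
  constructor
  · intro m hm h
    rw [fF_stt G val M x h, fF_stt G val M x hm]
    unfold SatN
    rw [ofCode_neg]
    exact Iff.rfl
  · intro m hm m' hm' h
    rw [fF_stt G val M x h, fF_stt G val M x hm, fF_stt G val M x hm']
    unfold SatN
    rw [ofCode_and]
    exact Iff.rfl

theorem satN_dia (x : G.Node) (r : Rel k) (m : ℕ) :
    SatN G val (cDia k r.tag m) x ↔ ∃ y, G.rel r x y ∧ SatN G val m y := by
  unfold SatN
  rw [ofCode_dia]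
  exact Iff.rfl

theorem leafOK_stt {q : ℕ} (hq : ∀ j : Fin k, ∀ m < M, posv M q j m = pos G val M j m)
    (hM : k < M) {x : G.Node} (hx : G.IsEnd x) : LeafOK k M q (stt G val M x) := by
  have hno : ∀ y, ¬ G.move x y := hx
  refine ⟨boolOK_stt G val M x, ?_, ?_, ?_, ?_, ?_, ?_⟩
  · rw [fF_stt G val M x (by omega)]
    unfold SatN
    rw [ofCode_zero]
    exact hx
  · intro j hj
    rw [fF_stt G val M x (by omega)]
    unfold SatN
    have := ofCode_turn k ⟨j, hj⟩
    simp only at this
    rw [this]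
    exact fun h => h.1 hx
  · intro m hm t ht ht' h
    rw [fF_stt G val M x h]
    have hcases : t = 3 ∨ t = 4 ∨ t = 5 := by omega
    rcases hcases with rfl | rfl | rfl
    · rw [show (3 : ℕ) = (Rel.move : Rel k).tag from rfl, satN_dia]
      rintro ⟨y, hy, _⟩
      exact hno y hy
    · rw [show (4 : ℕ) = (Rel.movePlus : Rel k).tag from rfl, satN_dia]
      rintro ⟨y, hy, _⟩
      obtain ⟨z, hz, _⟩ := TransGen.head'_iff.1 hy
      exact hno z hz
    · rw [show (5 : ℕ) = (Rel.best : Rel k).tag from rfl, satN_dia]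
      rintro ⟨y, hy, _⟩
      exact hno y (G.best_le_move hy)
  · intro m hm h
    rw [fF_stt G val M x h, fF_stt G val M x hm,
      show (6 : ℕ) = (Rel.bestStar : Rel k).tag from rfl, satN_dia]
    constructor
    · rintro ⟨y, hy, hs⟩
      rcases ReflTransGen.cases_head (show ReflTransGen G.best x y from hy) with rfl | ⟨z, hz, _⟩
      · exact hs
      · exact (hno z (G.best_le_move hz)).elim
    · intro hs
      exact ⟨x, ReflTransGen.refl, hs⟩
  · intro m hm j hj h
    rw [fF_stt G val M x h,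
      show 7 + j = (Rel.moveOf ⟨j, hj⟩ : Rel k).tag from rfl, satN_dia]
    rintro ⟨y, hy, _⟩
    exact hno y hy.1
  · intro j hj
    refine ⟨cell G val M ⟨j, hj⟩ x, cell_lt G val M _ x, cellOf_pos _ _, ?_, ?_, ?_, ?_⟩
    · intro v' hv'
      have := fC_stt G val M x ⟨j, hj⟩ hv'
      simp only at this
      rw [this]
      constructor
      · rintro ⟨u, ⟨hu, hr⟩, rfl⟩
        rcases ReflTransGen.cases_head hr with rfl | ⟨z, hz, _⟩
        · rfl
        · exact (hno z (G.best_le_move hz)).elim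
      · rintro rfl
        exact ⟨x, ⟨hx, .refl⟩, rfl⟩
    · intro m hm h
      have hqj := hq ⟨j, hj⟩ m hm
      simp only at hqj
      rw [fF_stt G val M x h, hqj, ← sat_pref_iff G val M ⟨j, hj⟩ hm hx,
        show 7 + k + j = (Rel.pref ⟨j, hj⟩ : Rel k).tag from rfl, satN_dia]
      exact Iff.rfl
    · intro m hm h
      have hqj := hq ⟨j, hj⟩ m hm
      simp only at hqj
      rw [fF_stt G val M x hm] at h
      rw [hqj]
      exact cell_le_pos G val M ⟨j, hj⟩ hx h
    · intro m hm
      have := fW_stt G val M x ⟨j, hj⟩ hm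
      simp only at this
      have hqj := hq ⟨j, hj⟩ m hm
      simp only at hqj
      rw [this, fF_stt G val M x hm, hqj]
      constructor
      · rintro ⟨u, hu, hr, hs, he⟩
        rcases ReflTransGen.cases_head hr with rfl | ⟨z, hz, _⟩
        · exact ⟨hs, he⟩
        · exact (hno z hz).elim
      · rintro ⟨hs, he⟩
        exact ⟨x, hx, .refl, hs, he⟩

theorem out_step {a : G.Node → G.Node → Prop} {x : G.Node} (hx : ¬ G.IsEnd x) (u : G.Node) :
    G.Out a x u ↔ ∃ y, a x y ∧ G.Out a y u := by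
  constructor
  · rintro ⟨hu, hr⟩
    rcases ReflTransGen.cases_head hr with rfl | ⟨z, hz, hr'⟩
    · exact (hx hu).elim
    · exact ⟨z, hz, hu, hr'⟩
  · rintro ⟨y, hy, hu, hr⟩
    exact ⟨hu, ReflTransGen.head hy hr⟩

theorem nodeSem_stt (hM : k < M) {x : G.Node} (hx : ¬ G.IsEnd x) :
    NodeSem k M (G.move x) (G.best x) (stt G val M) (stt G val M x) := by
  have hout := fun y : G.Node => G.exists_out y
  refine ⟨boolOK_stt G val M x, ?_, G.exists_best hx, ?_, ?_, ?_, ?_, ?_, ?_, ?_, ?_, ?_⟩
  · rw [fF_stt G val M x (by omega)]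
    unfold SatN
    rw [ofCode_zero]
    exact hx
  · refine ⟨G.turn x, (G.turn x).2, ?_, ?_, ?_⟩
    · intro j hj
      rw [fF_stt G val M x (by omega)]
      unfold SatN
      have := ofCode_turn k ⟨j, hj⟩
      simp only at this
      rw [this]
      constructor
      · intro h
        rw [h.2]
      · intro h
        exact ⟨hx, Fin.ext h.symm⟩
    · intro y hy z hz
      have h1 := ((G.best_iff x y).1 hy).2 z (G.best_le_move hz)
      rw [G.dominated_iff] at h1
      push Not at h1
      obtain ⟨u, w, hu, hw, hle⟩ := h1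
      refine ⟨_, cell_lt G val M (G.turn x) u, _, cell_lt G val M (G.turn x) w,
        (fC_stt G val M y _ (cell_lt G val M _ _)).2 ⟨u, hu, rfl⟩,
        (fC_stt G val M z _ (cell_lt G val M _ _)).2 ⟨w, hw, rfl⟩, cellOf_mono hle⟩
    · intro y hy hyb
      obtain ⟨z, hz, hd⟩ := G.exists_best_dominating hy hyb
      rw [G.dominated_iff] at hd
      refine ⟨z, hz, ?_⟩
      intro v hv v' hv' h1 h2
      obtain ⟨u, hu, rfl⟩ := (fC_stt G val M y _ hv).1 h1
      obtain ⟨w, hw, rfl⟩ := (fC_stt G val M z _ hv').1 h2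
      have h3 := hd u w hu hw
      have h4 : cell G val M (G.turn x) u ≤ cell G val M (G.turn x) w := cellOf_mono h3.le
      rcases h4.lt_or_eq with h5 | h5
      · exact Or.inl h5
      · refine Or.inr ⟨h5, ?_⟩
        by_contra h6
        have h7 := cellOf_lt (mem_of_cellOf_even h6) h3
        unfold cell at h5
        omega
  · intro m hm h
    rw [fF_stt G val M x h, show (3 : ℕ) = (Rel.move : Rel k).tag from rfl, satN_dia]
    exact exists_congr fun y => and_congr_right fun _ => (fF_stt G val M y hm).symm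
  · intro m hm h
    rw [fF_stt G val M x h]
    have h2 : ∀ y, SatN G val (cDia k 4 m) y ↔ ∃ z, TransGen G.move y z ∧ SatN G val m z := by
      intro y
      rw [show (4 : ℕ) = (Rel.movePlus : Rel k).tag from rfl, satN_dia]
      exact Iff.rfl
    rw [h2]
    have h3 : ∀ y, fF (stt G val M y) m ∨ fF (stt G val M y) (cDia k 4 m) ↔
        SatN G val m y ∨ ∃ z, TransGen G.move y z ∧ SatN G val m z := by
      intro y
      rw [fF_stt G val M y hm, fF_stt G val M y h, h2]
    simp only [h3]
    constructor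
    · rintro ⟨y, hy, hs⟩
      obtain ⟨z, hz, hr⟩ := TransGen.head'_iff.1 hy
      refine ⟨z, hz, ?_⟩
      rcases reflTransGen_iff_eq_or_transGen.1 hr with rfl | ht
      · exact Or.inl hs
      · exact Or.inr ⟨y, ht, hs⟩
    · rintro ⟨y, hy, hs | ⟨z, hz, hs⟩⟩
      · exact ⟨y, .single hy, hs⟩
      · exact ⟨z, .head hy hz, hs⟩
  · intro m hm h
    rw [fF_stt G val M x h, show (5 : ℕ) = (Rel.best : Rel k).tag from rfl, satN_dia]
    exact exists_congr fun y => and_congr_right fun _ => (fF_stt G val M y hm).symm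
  · intro m hm h
    have h2 : ∀ y, SatN G val (cDia k 6 m) y ↔ ∃ z, ReflTransGen G.best y z ∧ SatN G val m z := by
      intro y
      rw [show (6 : ℕ) = (Rel.bestStar : Rel k).tag from rfl, satN_dia]
      exact Iff.rfl
    have h3 : ∀ y, fF (stt G val M y) (cDia k 6 m) ↔
        ∃ z, ReflTransGen G.best y z ∧ SatN G val m z := by
      intro y
      rw [fF_stt G val M y h, h2]
    rw [fF_stt G val M x hm]
    simp only [h3]
    constructor
    · rintro ⟨z, hz, hs⟩
      rcases ReflTransGen.cases_head hz with rfl | ⟨y, hy, hr⟩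
      · exact Or.inl hs
      · exact Or.inr ⟨y, hy, z, hr, hs⟩
    · rintro (hs | ⟨y, hy, z, hr, hs⟩)
      · exact ⟨x, .refl, hs⟩
      · exact ⟨z, .head hy hr, hs⟩
  · intro m hm j hj h
    rw [fF_stt G val M x h, fF_stt G val M x (by omega),
      show 7 + j = (Rel.moveOf ⟨j, hj⟩ : Rel k).tag from rfl, satN_dia]
    have := ofCode_turn k ⟨j, hj⟩
    simp only at this
    have h4 : SatN G val (1 + j) x ↔ ¬ G.IsEnd x ∧ G.turn x = ⟨j, hj⟩ := by
      unfold SatN
      rw [this]
      exact Iff.rfl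
    rw [h4]
    constructor
    · rintro ⟨y, ⟨hy, ht⟩, hs⟩
      exact ⟨⟨hx, ht⟩, y, hy, (fF_stt G val M y hm).2 hs⟩
    · rintro ⟨⟨_, ht⟩, y, hy, hs⟩
      exact ⟨y, ⟨hy, ht⟩, (fF_stt G val M y hm).1 hs⟩
  · intro m hm j hj h
    rw [fF_stt G val M x h,
      show 7 + k + j = (Rel.pref ⟨j, hj⟩ : Rel k).tag from rfl, satN_dia]
    rintro ⟨y, hy, _⟩
    exact hx hy.1
  · intro j hj v hv
    have h5 := fun y => fC_stt G val M y ⟨j, hj⟩ hv
    simp only at h5
    simp only [h5]
    simp only [out_step G hx]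
    constructor
    · rintro ⟨u, ⟨y, hy, hu⟩, he⟩
      exact ⟨y, hy, u, hu, he⟩
    · rintro ⟨y, hy, u, hu, he⟩
      exact ⟨u, ⟨y, hy, hu⟩, he⟩
  · intro j hj m hm
    have h5 := fun y => fW_stt G val M y ⟨j, hj⟩ hm
    simp only at h5
    simp only [h5]
    constructor
    · rintro ⟨u, hu, hr, hs⟩
      rcases ReflTransGen.cases_head hr with rfl | ⟨y, hy, hr'⟩
      · exact (hx hu).elim
      · exact ⟨y, hy, u, hu, hr', hs⟩
    · rintro ⟨y, hy, u, hu, hr, hs⟩
      exact ⟨u, hu, .head hy hr, hs⟩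

theorem bit_of_closed {q : ℕ} (hq : ∀ j : Fin k, ∀ m < M, posv M q j m = pos G val M j m)
    (hM : k < M) {S : ℕ} (hS : Closed k M q S) (x : G.Node) : bit S (stt G val M x) := by
  induction x using G.treeInduction with
  | h x ih =>
    by_cases hx : G.IsEnd x
    · exact hS.1 _ (stt_lt G val M x) (leafOK_stt G val M hq hM hx)
    · obtain ⟨K', hK'lt, hK'⟩ := exists_mask (sb k M) fun σ => ∃ y, G.best x y ∧ stt G val M y = σ
      obtain ⟨K, hKlt, hK⟩ := exists_mask (sb k M) fun σ =>
        ∃ y, G.move x y ∧ ¬ G.best x y ∧ stt G val M y = σ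
      refine hS.2 K hKlt K' hK'lt _ (stt_lt G val M x) ?_ ?_
      · rintro σ hσ (h | h)
        · obtain ⟨y, hy, _, rfl⟩ := (hK σ hσ).1 h
          exact ih y hy
        · obtain ⟨y, hy, rfl⟩ := (hK' σ hσ).1 h
          exact ih y (G.best_le_move hy)
      · exact (nodeOK_iff (fun y hy => G.best_le_move hy) (stt_lt G val M) hK' hK).2
          (nodeSem_stt G val M hM hx)

end

/-- Refuted formulas satisfy the arithmetical predicate. -/
theorem refutable_of_not_valid {k n : ℕ} (h : ¬ Valid (Formula.ofCode k n)) : Refutable k n := by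
  unfold Valid at h
  push Not at h
  obtain ⟨G, val, x, hx⟩ := h
  set M := bd k n with hMdef
  have hkM : k < M := by
    rw [hMdef]; unfold bd cDia; omega
  have hnM : cNeg k n < M := by
    rw [hMdef]; unfold bd cDia
    nlinarith [Nat.zero_le (cNeg k n), Nat.zero_le k]
  have hn : n < M := by
    refine lt_trans ?_ hnM
    unfold cNeg
    nlinarith [Nat.zero_le n, Nat.zero_le k]
  have htM : cDia k 4 (cNeg k n) < M := by
    rw [hMdef]; unfold bd; omega
  obtain ⟨q, hqlt, hq⟩ := exists_dig (cb M) (by unfold cb; omega) (pb k M)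
    (fun p => if hp : p.unpair.1 < k then pos G val M ⟨p.unpair.1, hp⟩ p.unpair.2 else 0)
    (fun p _ => by
      split_ifs
      · exact pos_lt G val M _ _
      · unfold cb; omega)
  have hq' : ∀ j : Fin k, ∀ m < M, posv M q j m = pos G val M j m := by
    intro j m hm
    unfold posv
    rw [hq _ (le_pb_aux (by have := j.2; omega) (by unfold cb; omega))]
    simp
  refine ⟨q, hqlt, ?_, ?_⟩
  · intro j hj m hm
    have := hq' ⟨j, hj⟩ m hm
    simp only at this
    rw [this]
    exact pos_even G val M _ hm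
  · intro S _ hS
    refine ⟨stt G val M G.root, stt_lt G val M _, bit_of_closed G val M hq' hkM hS _, ?_, ?_⟩
    · intro j hj m hm hp
      have h1 := hq' ⟨j, hj⟩ m hm
      simp only at h1
      rw [h1] at hp
      obtain ⟨w, hw, hs, he⟩ := pos_wit G val M _ hp
      have h2 := fW_stt G val M G.root ⟨j, hj⟩ hm
      simp only at h2
      exact h2.2 ⟨w, hw, G.reachable w, hs, he⟩
    · rw [fF_stt G val M _ hn, fF_stt G val M _ htM,
        show (4 : ℕ) = (Rel.movePlus : Rel k).tag from rfl, satN_dia]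
      rcases reflTransGen_iff_eq_or_transGen.1 (G.reachable x) with he | ht
      · left
        rw [← he]
        exact hx
      · right
        refine ⟨x, ht, ?_⟩
        unfold SatN
        rw [ofCode_neg]
        exact hx

end Pool.Agent.Helper97.BestAction
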