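import Pool.Agent.Helper97.BestAction.Sound

/-!
# The game tree of a labelled tree, and the truth lemma
-/

namespace Pool.Agent.Helper97.BestAction

open Relation

/-- The last conjunct of `LeafOK`, for player `j` and cell `v`. -/
def CellSpec (k M q τ j v : ℕ) : Prop :=
  v < cb M ∧ 1 ≤ v ∧ (∀ v' < cb M, (fC τ j v' ↔ v' = v)) ∧
    (∀ m < M, cDia k (7 + k + j) m < M → (fF τ (cDia k (7 + k + j) m) ↔ v ≤ posv M q j m)) ∧
    (∀ m < M, fF τ m → v ≤ posv M q j m) ∧
    (∀ m < M, (fW τ j m ↔ fF τ m ∧ v = posv M q j m))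

namespace QTree

variable {k M q : ℕ} (Q : QTree k M q)

def Leaf (x : Q.V) : Prop := ∀ y, ¬ Q.mv x y

open Classical in
noncomputable def cell (j : ℕ) (x : Q.V) : ℕ :=
  if h : ∃ v, CellSpec k M q (Q.st x) j v then h.choose else 0

theorem cell_spec {x : Q.V} (hx : Q.Leaf x) {j : ℕ} (hj : j < k) :
    CellSpec k M q (Q.st x) j (Q.cell j x) := by
  have h : ∃ v, CellSpec k M q (Q.st x) j v := by
    obtain ⟨v, hv⟩ := (Q.leaf x hx).2.2.2.2.2.2 j hj
    exact ⟨v, hv⟩
  unfold cell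
  rw [dif_pos h]
  exact h.choose_spec

/-- The condition that determines the turn at an inner node. -/
def TurnSpec (x : Q.V) (i : Fin k) : Prop :=
  (∀ j < k, (fF (Q.st x) (1 + j) ↔ j = i)) ∧
    (∀ y, Q.sg x y → ∀ z, Q.sg x z →
      ∃ v < cb M, ∃ v' < cb M, fC (Q.st y) i v ∧ fC (Q.st z) i v' ∧ v' ≤ v) ∧
    (∀ y, Q.mv x y → ¬ Q.sg x y → ∃ z, Q.sg x z ∧
      ∀ v < cb M, ∀ v' < cb M, fC (Q.st y) i v → fC (Q.st z) i v' → v < v' ∨ (v = v' ∧ v % 2 = 1))

open Classical in
noncomputable def turn (hk : 0 < k) (x : Q.V) : Fin k :=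
  if h : ∃ i, Q.TurnSpec x i then h.choose else ⟨0, hk⟩

theorem turn_spec (hk : 0 < k) {x : Q.V} (hx : ¬ Q.Leaf x) : Q.TurnSpec x (Q.turn hk x) := by
  have h : ∃ i, Q.TurnSpec x i := by
    obtain ⟨i, hi, h⟩ := (Q.node x hx).2.2.2.1
    exact ⟨⟨i, hi⟩, h⟩
  unfold turn
  rw [dif_pos h]
  exact h.choose_spec

/-- The preference relations: first compare the cells; within an open cell, prefer the end nodes
with fewer non-best moves on the path from the root. -/
def le (j : ℕ) (u v : Q.V) : Prop :=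
  Q.cell j u < Q.cell j v ∨
    (Q.cell j u = Q.cell j v ∧ (Q.cell j u % 2 = 0 ∨ Q.d v ≤ Q.d u))

/-- The game tree of a labelled tree. -/
noncomputable def game (hk : 0 < k) : GameTree k where
  Node := Q.V
  finite := Q.fin
  root := Q.root
  move := Q.mv
  root_no_parent := Q.root_no_parent
  parent_unique := Q.parent_unique
  reachable := Q.reachable
  turn := Q.turn hk
  le := fun i => Q.le i
  le_total := by
    intro i u v _ _
    unfold le
    omega
  le_trans := by
    intro i u v w _ _ _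
    unfold le
    omega

variable (hk : 0 < k)

/-- Induction from the end nodes upwards. -/
theorem induct (Q : QTree k M q) (hk : 0 < k) {P : Q.V → Prop}
    (h : ∀ x, (∀ y, Q.mv x y → P y) → P x) (x : Q.V) :
    P x := (Q.game hk).treeInduction h x

/-- Outcomes. -/
def Out (x u : Q.V) : Prop := Q.Leaf u ∧ ReflTransGen Q.sg x u

theorem out_step {x : Q.V} (hx : ¬ Q.Leaf x) (u : Q.V) :
    Q.Out x u ↔ ∃ y, Q.sg x y ∧ Q.Out y u := by
  constructor
  · rintro ⟨hu, hr⟩
    rcases ReflTransGen.cases_head hr with rfl | ⟨z, hz, hr'⟩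
    · exact (hx hu).elim
    · exact ⟨z, hz, hu, hr'⟩
  · rintro ⟨y, hy, hu, hr⟩
    exact ⟨hu, ReflTransGen.head hy hr⟩

theorem out_leaf {x : Q.V} (hx : Q.Leaf x) (u : Q.V) : Q.Out x u ↔ u = x := by
  constructor
  · rintro ⟨hu, hr⟩
    rcases ReflTransGen.cases_head hr with rfl | ⟨z, hz, hr'⟩
    · rfl
    · exact (hx z (Q.sg_le _ _ hz)).elim
  · rintro rfl
    exact ⟨hx, .refl⟩

theorem d_out {x u : Q.V} (h : Q.Out x u) : Q.d u = Q.d x := by
  have hr := h.2
  clear h
  induction hr with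
  | refl => rfl
  | tail _ h ih => rw [Q.d_sg _ _ h, ih]

include hk in
theorem fC_iff {j : ℕ} (hj : j < k) {v : ℕ} (hv : v < cb M) (x : Q.V) :
    fC (Q.st x) j v ↔ ∃ u, Q.Out x u ∧ Q.cell j u = v := by
  induction x using Q.induct hk with
  | h x ih =>
    by_cases hx : Q.Leaf x
    · rw [(Q.cell_spec hx hj).2.2.1 v hv]
      constructor
      · rintro rfl
        exact ⟨x, (Q.out_leaf hx x).2 rfl, rfl⟩
      · rintro ⟨u, hu, rfl⟩
        rw [(Q.out_leaf hx u).1 hu]
    · rw [(Q.node x hx).2.2.2.2.2.2.2.2.2.2.1 j hj v hv]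
      constructor
      · rintro ⟨y, hy, h⟩
        obtain ⟨u, hu, he⟩ := (ih y (Q.sg_le _ _ hy)).1 h
        exact ⟨u, (Q.out_step hx u).2 ⟨y, hy, hu⟩, he⟩
      · rintro ⟨u, hu, he⟩
        obtain ⟨y, hy, hu'⟩ := (Q.out_step hx u).1 hu
        exact ⟨y, hy, (ih y (Q.sg_le _ _ hy)).2 ⟨u, hu', he⟩⟩

include hk in
theorem fW_iff {j : ℕ} (hj : j < k) {m : ℕ} (hm : m < M) (x : Q.V) :
    fW (Q.st x) j m ↔ ∃ u, Q.Leaf u ∧ ReflTransGen Q.mv x u ∧ fF (Q.st u) m ∧
      Q.cell j u = posv M q j m := by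
  induction x using Q.induct hk with
  | h x ih =>
    by_cases hx : Q.Leaf x
    · rw [(Q.cell_spec hx hj).2.2.2.2.2 m hm]
      constructor
      · rintro ⟨h1, h2⟩
        exact ⟨x, hx, .refl, h1, h2⟩
      · rintro ⟨u, _, hr, h1, h2⟩
        rcases ReflTransGen.cases_head hr with rfl | ⟨z, hz, _⟩
        · exact ⟨h1, h2⟩
        · exact (hx z hz).elim
    · rw [(Q.node x hx).2.2.2.2.2.2.2.2.2.2.2 j hj m hm]
      constructor
      · rintro ⟨y, hy, h⟩
        obtain ⟨u, hu, hr, hs⟩ := (ih y hy).1 h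
        exact ⟨u, hu, .head hy hr, hs⟩
      · rintro ⟨u, hu, hr, hs⟩
        rcases ReflTransGen.cases_head hr with rfl | ⟨y, hy, hr'⟩
        · exact (hx hu).elim
        · exact ⟨y, hy, (ih y hy).2 ⟨u, hu, hr', hs⟩⟩

theorem cell_lt_cb {u : Q.V} (hu : Q.Leaf u) {j : ℕ} (hj : j < k) : Q.cell j u < cb M :=
  (Q.cell_spec hu hj).1

/-- The best moves of the game tree are the marked ones. -/
theorem best_eq : (Q.game hk).best = Q.sg := by
  refine (GameTree.eq_best (Q.game hk) (sig := Q.sg) ?_).symm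
  intro x y
  have hlt : ∀ (i : Fin k) (u v : Q.V), (Q.game hk).lt i u v ↔ (Q.le i u v ∧ ¬ Q.le i v u) :=
    fun i u v => Iff.rfl
  have hdom : ∀ (i : Fin k) (y z : Q.V), (Q.game hk).Dominated Q.sg i y z ↔
      ∀ u v, Q.Out y u → Q.Out z v → (Q.le i u v ∧ ¬ Q.le i v u) := by
    intro i y z
    constructor
    · intro h u v hu hv
      exact h u v hu.1 hv.1 hu.2 hv.2
    · intro h u v hu hv h1 h2
      exact h u v ⟨hu, h1⟩ ⟨hv, h2⟩
  have hturn : (Q.game hk).turn x = Q.turn hk x := rfl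
  rw [hturn]
  have hmove : ∀ z, (Q.game hk).move x z ↔ Q.mv x z := fun z => Iff.rfl
  simp only [hmove]
  -- best children do not dominate each other
  have key1 : ∀ y z, Q.sg x y → Q.sg x z → ¬ (Q.game hk).Dominated Q.sg (Q.turn hk x) y z := by
    intro y z hy hz hd
    have hx : ¬ Q.Leaf x := fun h => h y (Q.sg_le _ _ hy)
    obtain ⟨v, hv, v', hv', h1, h2, h3⟩ := (Q.turn_spec hk hx).2.1 y hy z hz
    obtain ⟨u, hu, hue⟩ := (Q.fC_iff hk (Q.turn hk x).2 hv y).1 h1
    obtain ⟨w, hw, hwe⟩ := (Q.fC_iff hk (Q.turn hk x).2 hv' z).1 h2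
    have h4 := (hdom _ _ _).1 hd u w hu hw
    have h5 := Q.d_out hu
    have h6 := Q.d_out hw
    have h7 := Q.d_sg _ _ hy
    have h8 := Q.d_sg _ _ hz
    unfold le at h4
    omega
  -- other children are dominated by a best child
  have key2 : ∀ y, Q.mv x y → ¬ Q.sg x y → ∃ z, Q.sg x z ∧
      (Q.game hk).Dominated Q.sg (Q.turn hk x) y z := by
    intro y hy hn
    have hx : ¬ Q.Leaf x := fun h => h y hy
    obtain ⟨z, hz, h⟩ := (Q.turn_spec hk hx).2.2 y hy hn
    refine ⟨z, hz, (hdom _ _ _).2 ?_⟩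
    intro u w hu hw
    have h1 := h _ (Q.cell_lt_cb hu.1 (Q.turn hk x).2) _ (Q.cell_lt_cb hw.1 (Q.turn hk x).2)
      ((Q.fC_iff hk (Q.turn hk x).2 (Q.cell_lt_cb hu.1 (Q.turn hk x).2) y).2 ⟨u, hu, rfl⟩)
      ((Q.fC_iff hk (Q.turn hk x).2 (Q.cell_lt_cb hw.1 (Q.turn hk x).2) z).2 ⟨w, hw, rfl⟩)
    have h5 := Q.d_out hu
    have h6 := Q.d_out hw
    have h7 := Q.d_ns _ _ hy hn
    have h8 := Q.d_sg _ _ hz
    unfold le
    omega
  have hoc : ∀ y, ∃ u, Q.Out y u := by
    intro y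
    induction y using Q.induct hk with
    | h y ih =>
      by_cases hy : Q.Leaf y
      · exact ⟨y, (Q.out_leaf hy y).2 rfl⟩
      · obtain ⟨z, hz⟩ := (Q.node y hy).2.2.1
        obtain ⟨u, hu⟩ := ih z (Q.sg_le _ _ hz)
        exact ⟨u, (Q.out_step hy u).2 ⟨z, hz, hu⟩⟩
  constructor
  · intro h
    refine ⟨Q.sg_le _ _ h, fun z hz hd => ?_⟩
    by_cases hsz : Q.sg x z
    · exact key1 y z h hsz hd
    · obtain ⟨z', hz', hd'⟩ := key2 z hz hsz
      refine key1 y z' h hz' ((hdom _ _ _).2 fun u w hu hw => ?_)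
      obtain ⟨v, hv⟩ := hoc z
      have h1 := (hdom _ _ _).1 hd u v hu hv
      have h2 := (hdom _ _ _).1 hd' v w hv hw
      unfold le at h1 h2 ⊢
      omega
  · rintro ⟨hm, h⟩
    by_contra hn
    obtain ⟨z, hz, hd⟩ := key2 y hm hn
    exact h z (Q.sg_le _ _ hz) hd

/-- The valuation of the game tree. -/
def val (p : ℕ) (x : Q.V) : Prop := fF (Q.st x) (k + 1 + ((7 + 2 * k) * p + 0))

theorem code_lt_of_lt_neg {φ : Formula k} (h : φ.neg.code < M) : φ.code < M := by
  simp only [Formula.code] at h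
  nlinarith [Nat.zero_le φ.code, Nat.zero_le k]

theorem code_lt_of_lt_dia {φ : Formula k} {r : Rel k} (h : (Formula.dia r φ).code < M) :
    φ.code < M := by
  simp only [Formula.code] at h
  nlinarith [Nat.zero_le φ.code, Nat.zero_le k]

theorem code_lt_of_lt_and {φ ψ : Formula k} (h : (Formula.and φ ψ).code < M) :
    φ.code < M ∧ ψ.code < M := by
  simp only [Formula.code] at h
  have h1 := Nat.left_le_pair φ.code ψ.code
  have h2 := Nat.right_le_pair φ.code ψ.code
  constructor <;> nlinarith [Nat.zero_le (Nat.pair φ.code ψ.code), Nat.zero_le k]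

/-- The truth lemma. -/
theorem truth (hacc : ∀ j < k, ∀ m < M, posv M q j m ≠ 0 → fW (Q.st Q.root) j m)
    (heven : ∀ j < k, ∀ m < M, posv M q j m % 2 = 0)
    (φ : Formula k) (hφ : φ.code < M) (x : Q.V) :
    fF (Q.st x) φ.code ↔ (Q.game hk).Sat Q.val φ x := by
  induction φ generalizing x with
  | letter p => exact Iff.rfl
  | endNode =>
    change fF (Q.st x) 0 ↔ Q.Leaf x
    by_cases hx : Q.Leaf x
    · simp only [hx, iff_true]
      exact (Q.leaf x hx).2.1
    · simp only [hx, iff_false]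
      exact (Q.node x hx).2.1
  | turn i =>
    change fF (Q.st x) (1 + i) ↔ ¬ Q.Leaf x ∧ Q.turn hk x = i
    by_cases hx : Q.Leaf x
    · simp only [hx, not_true, false_and, iff_false]
      exact (Q.leaf x hx).2.2.1 i i.2
    · rw [(Q.turn_spec hk hx).1 i i.2]
      constructor
      · intro h
        exact ⟨hx, Fin.ext h.symm⟩
      · rintro ⟨_, rfl⟩
        rfl
  | neg φ ih =>
    have hφ' := code_lt_of_lt_neg hφ
    change fF (Q.st x) (cNeg k φ.code) ↔ ¬ (Q.game hk).Sat Q.val φ x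
    rw [← ih hφ' x]
    by_cases hx : Q.Leaf x
    · exact (Q.leaf x hx).1.1 _ hφ' hφ
    · exact (Q.node x hx).1.1 _ hφ' hφ
  | and φ ψ ih1 ih2 =>
    obtain ⟨h1, h2⟩ := code_lt_of_lt_and hφ
    change fF (Q.st x) (cAnd k φ.code ψ.code) ↔
      (Q.game hk).Sat Q.val φ x ∧ (Q.game hk).Sat Q.val ψ x
    rw [← ih1 h1 x, ← ih2 h2 x]
    by_cases hx : Q.Leaf x
    · exact (Q.leaf x hx).1.2 _ h1 _ h2 hφ
    · exact (Q.node x hx).1.2 _ h1 _ h2 hφ
  | dia r φ ih =>
    have hφ' := code_lt_of_lt_dia hφ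
    change fF (Q.st x) (cDia k r.tag φ.code) ↔
      ∃ y, (Q.game hk).rel r x y ∧ (Q.game hk).Sat Q.val φ y
    have hih : ∀ y : Q.V, (Q.game hk).Sat Q.val φ y ↔ fF (Q.st y) φ.code :=
      fun y => (ih hφ' y).symm
    have hih' : (∃ y, (Q.game hk).rel r x y ∧ (Q.game hk).Sat Q.val φ y) ↔
        ∃ y : Q.V, (Q.game hk).rel r x y ∧ fF (Q.st y) φ.code :=
      exists_congr fun y => and_congr_right fun _ => hih y
    rw [hih']
    cases r with
    | move =>
      change fF (Q.st x) (cDia k 3 φ.code) ↔ ∃ y : Q.V, Q.mv x y ∧ fF (Q.st y) φ.code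
      by_cases hx : Q.Leaf x
      · have h1 := (Q.leaf x hx).2.2.2.1 _ hφ' 3 (by omega) (by omega) hφ
        simp only [h1, false_iff]
        rintro ⟨y, hy, _⟩
        exact hx y hy
      · exact (Q.node x hx).2.2.2.2.1 _ hφ' hφ
    | movePlus =>
      change fF (Q.st x) (cDia k 4 φ.code) ↔ ∃ y : Q.V, TransGen Q.mv x y ∧ fF (Q.st y) φ.code
      clear hih'
      induction x using Q.induct hk with
      | h x ihx =>
        by_cases hx : Q.Leaf x
        · have h1 := (Q.leaf x hx).2.2.2.1 _ hφ' 4 (by omega) (by omega) hφ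
          simp only [h1, false_iff]
          rintro ⟨y, hy, _⟩
          obtain ⟨z, hz, _⟩ := TransGen.head'_iff.1 hy
          exact hx z hz
        · rw [(Q.node x hx).2.2.2.2.2.1 _ hφ' hφ]
          constructor
          · rintro ⟨y, hy, h | h⟩
            · exact ⟨y, .single hy, h⟩
            · obtain ⟨z, hz, h⟩ := (ihx y hy).1 h
              exact ⟨z, .head hy hz, h⟩
          · rintro ⟨y, hy, h⟩
            obtain ⟨z, hz, hr⟩ := TransGen.head'_iff.1 hy
            refine ⟨z, hz, ?_⟩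
            rcases reflTransGen_iff_eq_or_transGen.1 hr with rfl | ht
            · exact Or.inl h
            · exact Or.inr ((ihx z hz).2 ⟨y, ht, h⟩)
    | best =>
      change fF (Q.st x) (cDia k 5 φ.code) ↔
        ∃ y : Q.V, (Q.game hk).best x y ∧ fF (Q.st y) φ.code
      rw [Q.best_eq hk]
      by_cases hx : Q.Leaf x
      · have h1 := (Q.leaf x hx).2.2.2.1 _ hφ' 5 (by omega) (by omega) hφ
        simp only [h1, false_iff]
        rintro ⟨y, hy, _⟩
        exact hx y (Q.sg_le _ _ hy)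
      · exact (Q.node x hx).2.2.2.2.2.2.1 _ hφ' hφ
    | bestStar =>
      change fF (Q.st x) (cDia k 6 φ.code) ↔
        ∃ y : Q.V, ReflTransGen (Q.game hk).best x y ∧ fF (Q.st y) φ.code
      rw [Q.best_eq hk]
      clear hih'
      induction x using Q.induct hk with
      | h x ihx =>
        by_cases hx : Q.Leaf x
        · rw [(Q.leaf x hx).2.2.2.2.1 _ hφ' hφ]
          constructor
          · intro h
            exact ⟨x, .refl, h⟩
          · rintro ⟨y, hy, h⟩
            rcases ReflTransGen.cases_head hy with rfl | ⟨z, hz, _⟩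
            · exact h
            · exact (hx z (Q.sg_le _ _ hz)).elim
        · rw [(Q.node x hx).2.2.2.2.2.2.2.1 _ hφ' hφ]
          constructor
          · rintro (h | ⟨y, hy, h⟩)
            · exact ⟨x, .refl, h⟩
            · obtain ⟨z, hz, h⟩ := (ihx y (Q.sg_le _ _ hy)).1 h
              exact ⟨z, .head hy hz, h⟩
          · rintro ⟨y, hy, h⟩
            rcases ReflTransGen.cases_head hy with rfl | ⟨z, hz, hr⟩
            · exact Or.inl h
            · exact Or.inr ⟨z, hz, (ihx z (Q.sg_le _ _ hz)).2 ⟨y, hr, h⟩⟩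
    | moveOf j =>
      change fF (Q.st x) (cDia k (7 + j) φ.code) ↔
        ∃ y : Q.V, (Q.mv x y ∧ Q.turn hk x = j) ∧ fF (Q.st y) φ.code
      by_cases hx : Q.Leaf x
      · have h1 := (Q.leaf x hx).2.2.2.2.2.1 _ hφ' j j.2 hφ
        simp only [h1, false_iff]
        rintro ⟨y, hy, _⟩
        exact hx y hy.1
      · rw [(Q.node x hx).2.2.2.2.2.2.2.2.1 _ hφ' j j.2 hφ, (Q.turn_spec hk hx).1 j j.2]
        constructor
        · rintro ⟨ht, y, hy, h⟩
          exact ⟨y, ⟨hy, Fin.ext ht.symm⟩, h⟩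
        · rintro ⟨y, ⟨hy, ht⟩, h⟩
          exact ⟨by rw [ht], y, hy, h⟩
    | pref j =>
      change fF (Q.st x) (cDia k (7 + k + j) φ.code) ↔
        ∃ y : Q.V, (Q.Leaf x ∧ Q.Leaf y ∧ Q.le j x y) ∧ fF (Q.st y) φ.code
      by_cases hx : Q.Leaf x
      · rw [(Q.cell_spec hx j.2).2.2.2.1 _ hφ' hφ]
        constructor
        · intro h
          have h1 := (Q.cell_spec hx j.2).2.1
          have h2 := hacc j j.2 _ hφ' (by omega)
          obtain ⟨u, hu, _, hs, he⟩ := (Q.fW_iff hk j.2 hφ' Q.root).1 h2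
          have h3 := heven j j.2 _ hφ'
          refine ⟨u, ⟨hx, hu, ?_⟩, hs⟩
          unfold le
          omega
        · rintro ⟨y, ⟨_, hy, hle⟩, hs⟩
          have h1 := (Q.cell_spec hy j.2).2.2.2.2.1 _ hφ' hs
          unfold le at hle
          omega
      · have h1 := (Q.node x hx).2.2.2.2.2.2.2.2.2.1 _ hφ' j j.2 hφ
        simp only [h1, false_iff]
        rintro ⟨y, hy, _⟩
        exact hx hy.1

end QTree

/-- Formulas that satisfy the arithmetical predicate are refuted in some game tree. -/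
theorem not_valid_of_refutable {k n : ℕ} (hk : 0 < k) (h : Refutable k n) :
    ¬ Valid (Formula.ofCode k n) := by
  obtain ⟨q, _, heven, h⟩ := h
  obtain ⟨S, hS, hcl, hreal⟩ := exists_closed k (bd k n) q
  obtain ⟨τ, hτ, hb, hacc, hn⟩ := h S hS hcl
  obtain ⟨Q, rfl⟩ := hreal τ hτ hb
  have hnM : cNeg k n < bd k n := by
    unfold bd cDia
    nlinarith [Nat.zero_le (cNeg k n), Nat.zero_le k]
  have hnM' : n < bd k n := by
    refine lt_trans ?_ hnM
    unfold cNeg
    nlinarith [Nat.zero_le n, Nat.zero_le k]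
  have htM : cDia k 4 (cNeg k n) < bd k n := by
    unfold bd; omega
  intro hv
  have e1 : (Formula.ofCode k n).code = n := Formula.code_ofCode n
  have e2 : (Formula.dia .movePlus (.neg (Formula.ofCode k n))).code = cDia k 4 (cNeg k n) := by
    simp only [Formula.code, e1, cDia, cNeg, Rel.tag]
  rcases hn with hn | hn
  · apply hn
    have := (Q.truth hk hacc heven (Formula.ofCode k n) (by rw [e1]; exact hnM') Q.root).2
      (hv (Q.game hk) Q.val Q.root)
    rwa [e1] at this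
  · have := (Q.truth hk hacc heven (Formula.dia .movePlus (.neg (Formula.ofCode k n)))
      (by rw [e2]; exact htM) Q.root).1 (by rw [e2]; exact hn)
    obtain ⟨y, _, hy⟩ := this
    exact hy (hv (Q.game hk) Q.val y)

end Pool.Agent.Helper97.BestAction
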