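import Mathlib

/-!
# Closure properties of primitive recursive predicates
-/

namespace Pool.Agent.Helper97.BestAction.PR

variable {α : Type*} [Primcodable α]

theorem imp {p q : α → Prop} (hp : PrimrecPred p) (hq : PrimrecPred q) :
    PrimrecPred fun a => p a → q a :=
  (hp.not.or hq).of_eq fun a => by tauto

theorem iff {p q : α → Prop} (hp : PrimrecPred p) (hq : PrimrecPred q) :
    PrimrecPred fun a => (p a ↔ q a) :=
  ((imp hp hq).and (imp hq hp)).of_eq fun a => by tauto

theorem and {p q : α → Prop} (hp : PrimrecPred p) (hq : PrimrecPred q) :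
    PrimrecPred fun a => p a ∧ q a := PrimrecPred.and hp hq

theorem or {p q : α → Prop} (hp : PrimrecPred p) (hq : PrimrecPred q) :
    PrimrecPred fun a => p a ∨ q a := PrimrecPred.or hp hq

theorem not {p : α → Prop} (hp : PrimrecPred p) :
    PrimrecPred fun a => ¬ p a := PrimrecPred.not hp

theorem all_lt {f : α → ℕ} {R : α → ℕ → Prop} (hf : Primrec f)
    (hR : PrimrecPred fun p : α × ℕ => R p.1 p.2) : PrimrecPred fun a => ∀ x < f a, R a x := by
  have h1 : PrimrecRel (fun (x : ℕ) (a : α) => R a x) := by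
    have := hR.comp (f := fun p : ℕ × α => (p.2, p.1)) (Primrec.snd.pair Primrec.fst)
    exact this
  have h2 := PrimrecRel.comp (h1.forall_mem_list) (Primrec.list_range.comp hf) Primrec.id
  exact h2.of_eq fun a => by simp

theorem ex_lt {f : α → ℕ} {R : α → ℕ → Prop} (hf : Primrec f)
    (hR : PrimrecPred fun p : α × ℕ => R p.1 p.2) : PrimrecPred fun a => ∃ x < f a, R a x :=
  (PR.not (all_lt (R := fun a x => ¬ R a x) hf (PR.not hR))).of_eq fun a => by push Not; rfl

theorem lt {f g : α → ℕ} (hf : Primrec f) (hg : Primrec g) : PrimrecPred fun a => f a < g a :=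
  PrimrecRel.comp Primrec.nat_lt hf hg

theorem le {f g : α → ℕ} (hf : Primrec f) (hg : Primrec g) : PrimrecPred fun a => f a ≤ g a :=
  PrimrecRel.comp Primrec.nat_le hf hg

theorem eq {f g : α → ℕ} (hf : Primrec f) (hg : Primrec g) : PrimrecPred fun a => f a = g a :=
  PrimrecRel.comp Primrec.eq hf hg

theorem ne {f g : α → ℕ} (hf : Primrec f) (hg : Primrec g) : PrimrecPred fun a => f a ≠ g a :=
  PR.not (PR.eq hf hg)

theorem const (n : ℕ) : Primrec fun _ : α => n := Primrec.const n

theorem add {f g : α → ℕ} (hf : Primrec f) (hg : Primrec g) : Primrec fun a => f a + g a :=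
  Primrec.nat_add.comp hf hg

theorem mul {f g : α → ℕ} (hf : Primrec f) (hg : Primrec g) : Primrec fun a => f a * g a :=
  Primrec.nat_mul.comp hf hg

theorem div {f g : α → ℕ} (hf : Primrec f) (hg : Primrec g) : Primrec fun a => f a / g a :=
  Primrec.nat_div.comp hf hg

theorem mod {f g : α → ℕ} (hf : Primrec f) (hg : Primrec g) : Primrec fun a => f a % g a :=
  Primrec.nat_mod.comp hf hg

theorem pow {f g : α → ℕ} (hf : Primrec f) (hg : Primrec g) : Primrec fun a => f a ^ g a := by
  have h : Primrec₂ (fun a b : ℕ => a ^ b) := Primrec₂.unpaired'.1 Nat.Primrec.pow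
  exact h.comp hf hg

theorem pair {f g : α → ℕ} (hf : Primrec f) (hg : Primrec g) :
    Primrec fun a => Nat.pair (f a) (g a) :=
  Primrec₂.natPair.comp hf hg

theorem fst {β γ : Type*} [Primcodable β] [Primcodable γ] {f : α → β × γ} (hf : Primrec f) :
    Primrec fun a => (f a).1 := Primrec.fst.comp hf

theorem snd {β γ : Type*} [Primcodable β] [Primcodable γ] {f : α → β × γ} (hf : Primrec f) :
    Primrec fun a => (f a).2 := Primrec.snd.comp hf

theorem id : Primrec fun a : α => a := Primrec.id

end Pool.Agent.Helper97.BestAction.PR
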