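import Pool.Agent.Helper97.BestAction.BI
import Pool.Agent.Helper97.BestAction.Sem

/-!
# From the arithmetical predicate to a refuting game tree
-/

namespace Pool.Agent.Helper97.BestAction

open Relation

/-- The local condition only depends on the states of the children. -/
theorem nodeSem_congr {k M : ℕ} {V V' : Type} {mv bs : V → Prop} {st : V → ℕ}
    {mv' bs' : V' → Prop} {st' : V' → ℕ} {τ : ℕ} (f : V → V')
    (h1 : ∀ y, mv y → mv' (f y)) (h2 : ∀ z, mv' z → ∃ y, mv y ∧ f y = z)
    (hb : ∀ y, bs' (f y) ↔ bs y) (hst : ∀ y, st' (f y) = st y)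
    (hle : ∀ y, bs y → mv y) (hle' : ∀ z, bs' z → mv' z)
    (hlt : ∀ y, st y < sb k M) (hlt' : ∀ z, st' z < sb k M) (h : NodeSem k M mv bs st τ) :
    NodeSem k M mv' bs' st' τ := by
  obtain ⟨K', _, hK'⟩ := exists_mask (sb k M) fun σ => ∃ y, bs y ∧ st y = σ
  obtain ⟨K, _, hK⟩ := exists_mask (sb k M) fun σ => ∃ y, mv y ∧ ¬ bs y ∧ st y = σ
  refine (nodeOK_iff hle' hlt' ?_ ?_).1 ((nodeOK_iff hle hlt hK' hK).2 h)
  · intro σ hσ
    rw [hK' σ hσ]
    constructor
    · rintro ⟨y, hy, rfl⟩
      exact ⟨f y, (hb y).2 hy, hst y⟩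
    · rintro ⟨z, hz, rfl⟩
      obtain ⟨y, hy, rfl⟩ := h2 z (hle' z hz)
      exact ⟨y, (hb y).1 hz, (hst y).symm⟩
  · intro σ hσ
    rw [hK σ hσ]
    constructor
    · rintro ⟨y, hy, hn, rfl⟩
      exact ⟨f y, h1 y hy, fun h => hn ((hb y).1 h), hst y⟩
    · rintro ⟨z, hz, hn, rfl⟩
      obtain ⟨y, hy, rfl⟩ := h2 z hz
      exact ⟨y, hy, fun h => hn ((hb y).2 h), (hst y).symm⟩

/-- A finite tree labelled with states that satisfy the local conditions. -/
structure QTree (k M q : ℕ) where
  V : Type
  fin : Finite V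
  root : V
  mv : V → V → Prop
  sg : V → V → Prop
  sg_le : ∀ x y, sg x y → mv x y
  root_no_parent : ∀ x, ¬ mv x root
  parent_unique : ∀ x y z, mv x z → mv y z → x = y
  reachable : ∀ x, ReflTransGen mv root x
  st : V → ℕ
  st_lt : ∀ x, st x < sb k M
  d : V → ℕ
  d_root : d root = 0
  d_sg : ∀ x y, sg x y → d y = d x
  d_ns : ∀ x y, mv x y → ¬ sg x y → d y = d x + 1
  leaf : ∀ x, (∀ y, ¬ mv x y) → LeafOK k M q (st x)
  node : ∀ x, ¬ (∀ y, ¬ mv x y) → NodeSem k M (mv x) (sg x) st (st x)

section union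

variable {k M q : ℕ} {C : Type} (Q : C → QTree k M q) (flag : C → Prop)

inductive UMv : Option (Σ c, (Q c).V) → Option (Σ c, (Q c).V) → Prop
  | top (c : C) : UMv none (some ⟨c, (Q c).root⟩)
  | down (c : C) (x y : (Q c).V) : (Q c).mv x y → UMv (some ⟨c, x⟩) (some ⟨c, y⟩)

inductive USg : Option (Σ c, (Q c).V) → Option (Σ c, (Q c).V) → Prop
  | top (c : C) : flag c → USg none (some ⟨c, (Q c).root⟩)
  | down (c : C) (x y : (Q c).V) : (Q c).sg x y → USg (some ⟨c, x⟩) (some ⟨c, y⟩)

theorem umv_down {c : C} {x y : (Q c).V} (h : UMv Q (some ⟨c, x⟩) (some ⟨c, y⟩)) :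
    (Q c).mv x y := by
  cases h with
  | down _ _ _ h => exact h

theorem usg_down {c : C} {x y : (Q c).V} (h : USg Q flag (some ⟨c, x⟩) (some ⟨c, y⟩)) :
    (Q c).sg x y := by
  cases h with
  | down _ _ _ h => exact h

theorem usg_top {c : C} {y : (Q c).V} (h : USg Q flag none (some ⟨c, y⟩)) : flag c := by
  cases h with
  | top _ h => exact h

theorem umv_some {c : C} {x : (Q c).V} {z} (h : UMv Q (some ⟨c, x⟩) z) :
    ∃ y, z = some ⟨c, y⟩ ∧ (Q c).mv x y := by
  cases h with
  | down _ _ y h => exact ⟨y, rfl, h⟩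

theorem umv_none {z} (h : UMv Q none z) : ∃ c, z = some ⟨c, (Q c).root⟩ := by
  cases h with
  | top c => exact ⟨c, rfl⟩

theorem usg_le {x y} (h : USg Q flag x y) : UMv Q x y := by
  cases h with
  | top c h => exact .top c
  | down c x y h => exact .down c x y ((Q c).sg_le _ _ h)

theorem umv_to_none {x} (h : UMv Q x none) : False := by
  cases h

open Classical in
/-- The tree obtained by putting a new root above a finite family of trees. -/
noncomputable def union [Finite C] {τ : ℕ} (hτ : τ < sb k M) (hC : Nonempty C)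
    (h : NodeSem k M (fun _ : C => True) flag (fun c => (Q c).st (Q c).root) τ) :
    QTree k M q where
  V := Option (Σ c, (Q c).V)
  fin := by
    have := fun c => (Q c).fin
    infer_instance
  root := none
  mv := UMv Q
  sg := USg Q flag
  sg_le := fun x y h => usg_le Q flag h
  root_no_parent := fun x h => umv_to_none Q h
  parent_unique := by
    intro x y z hx hy
    rcases z with _ | ⟨c, z⟩
    · exact (umv_to_none Q hx).elim
    rcases x with _ | ⟨c1, x⟩
    · rcases y with _ | ⟨c2, y⟩
      · rfl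
      · obtain ⟨c', hc'⟩ := umv_none Q hx
        obtain ⟨y', hy', hm⟩ := umv_some Q hy
        rw [hc'] at hy'
        simp only [Option.some.injEq, Sigma.mk.injEq] at hy'
        obtain ⟨rfl, h2⟩ := hy'
        rw [← eq_of_heq h2] at hm
        exact ((Q c').root_no_parent _ hm).elim
    · rcases y with _ | ⟨c2, y⟩
      · obtain ⟨c', hc'⟩ := umv_none Q hy
        obtain ⟨y', hy', hm⟩ := umv_some Q hx
        rw [hc'] at hy'
        simp only [Option.some.injEq, Sigma.mk.injEq] at hy'
        obtain ⟨rfl, h2⟩ := hy'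
        rw [← eq_of_heq h2] at hm
        exact ((Q c').root_no_parent _ hm).elim
      · obtain ⟨x', hx', hm⟩ := umv_some Q hx
        obtain ⟨y', hy', hm'⟩ := umv_some Q hy
        rw [hx'] at hy'
        simp only [Option.some.injEq, Sigma.mk.injEq] at hx' hy'
        obtain ⟨rfl, h2⟩ := hy'
        rw [eq_of_heq h2] at hm
        rw [(Q c1).parent_unique _ _ _ hm hm']
  reachable := by
    rintro (_ | ⟨c, x⟩)
    · exact .refl
    · have h0 : ReflTransGen (UMv Q) none (some ⟨c, (Q c).root⟩) := .single (.top c)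
      have h1 := (Q c).reachable x
      induction h1 with
      | refl => exact h0
      | tail _ h ih => exact ih.tail (.down c _ _ h)
  st := fun x => match x with
    | none => τ
    | some ⟨c, x⟩ => (Q c).st x
  st_lt := by
    rintro (_ | ⟨c, x⟩)
    · exact hτ
    · exact (Q c).st_lt x
  d := fun x => match x with
    | none => 0
    | some ⟨c, x⟩ => (Q c).d x + if flag c then 0 else 1
  d_root := rfl
  d_sg := by
    intro x y h
    cases h with
    | top c h => simp [(Q c).d_root, h]
    | down c x y h => simp [(Q c).d_sg _ _ h]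
  d_ns := by
    intro x y h h'
    cases h with
    | top c =>
      have : ¬ flag c := fun hf => h' (.top c hf)
      simp [(Q c).d_root, this]
    | down c x y h =>
      have : ¬ (Q c).sg x y := fun hf => h' (.down c _ _ hf)
      simp [(Q c).d_ns _ _ h this]
      omega
  leaf := by
    rintro (_ | ⟨c, x⟩) hl
    · obtain ⟨c⟩ := hC
      exact (hl _ (.top c)).elim
    · exact (Q c).leaf x fun y hy => hl _ (.down c x y hy)
  node := by
    rintro (_ | ⟨c, x⟩) hn
    · refine nodeSem_congr (fun c => some ⟨c, (Q c).root⟩) ?_ ?_ ?_ ?_ ?_ ?_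
        (fun c => (Q c).st_lt _) (by
          rintro (_ | ⟨c, x⟩)
          · exact hτ
          · exact (Q c).st_lt x) h
      · intro c _
        exact .top c
      · intro z hz
        obtain ⟨c, rfl⟩ := umv_none Q hz
        exact ⟨c, trivial, rfl⟩
      · intro c
        exact ⟨fun h => usg_top Q flag h, fun h => .top c h⟩
      · intro c
        rfl
      · intro c _
        trivial
      · intro z hz
        exact usg_le Q flag hz
    · have hx : ¬ ∀ y, ¬ (Q c).mv x y := by
        intro hall
        apply hn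
        intro z hz
        obtain ⟨y, _, hy⟩ := umv_some Q hz
        exact hall y hy
      refine nodeSem_congr (fun y => some ⟨c, y⟩) ?_ ?_ ?_ ?_ ?_ ?_
        (Q c).st_lt (by
          rintro (_ | ⟨c, x⟩)
          · exact hτ
          · exact (Q c).st_lt x) ((Q c).node x hx)
      · intro y hy
        exact .down c x y hy
      · intro z hz
        obtain ⟨y, rfl, hy⟩ := umv_some Q hz
        exact ⟨y, hy, rfl⟩
      · intro y
        exact ⟨fun h => usg_down Q flag h, fun h => .down c x y h⟩
      · intro y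
        rfl
      · intro y hy
        exact (Q c).sg_le _ _ hy
      · intro z hz
        exact usg_le Q flag hz

end union

/-- The tree with a single node. -/
def single {k M q τ : ℕ} (hτ : τ < sb k M) (h : LeafOK k M q τ) : QTree k M q where
  V := Unit
  fin := inferInstance
  root := ()
  mv := fun _ _ => False
  sg := fun _ _ => False
  sg_le := fun _ _ h => h
  root_no_parent := fun _ h => h
  parent_unique := fun _ _ _ h => h.elim
  reachable := fun _ => .refl
  st := fun _ => τ
  st_lt := fun _ => hτ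
  d := fun _ => 0
  d_root := rfl
  d_sg := fun _ _ h => h.elim
  d_ns := fun _ _ h => h.elim
  leaf := fun _ _ => h
  node := fun _ h => (h fun _ h => h).elim

theorem exists_closed (k M q : ℕ) :
    ∃ S < 2 ^ sb k M, Closed k M q S ∧
      ∀ τ < sb k M, bit S τ → ∃ Q : QTree k M q, Q.st Q.root = τ := by
  obtain ⟨S, hS, hb⟩ := exists_mask (sb k M) fun τ => ∃ Q : QTree k M q, Q.st Q.root = τ
  refine ⟨S, hS, ⟨?_, ?_⟩, fun τ hτ h => (hb τ hτ).1 h⟩
  · intro τ hτ h
    exact (hb τ hτ).2 ⟨single hτ h, rfl⟩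
  · intro K _ K' _ τ hτ hmem hnode
    rw [hb τ hτ]
    have hex : ∀ c : {p : Fin (sb k M) × Bool //
        (p.2 = true ∧ bit K' p.1) ∨ (p.2 = false ∧ bit K p.1)},
        ∃ Q : QTree k M q, Q.st Q.root = (c.1.1 : ℕ) := by
      rintro ⟨⟨⟨σ, hσ⟩, b⟩, hc⟩
      refine (hb σ hσ).1 (hmem σ hσ ?_)
      rcases hc with hc | hc
      · exact Or.inr hc.2
      · exact Or.inl hc.2
    choose Q hQ using hex
    have hsem := (nodeOK_iff (V := {p : Fin (sb k M) × Bool //
        (p.2 = true ∧ bit K' p.1) ∨ (p.2 = false ∧ bit K p.1)})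
        (mv := fun _ => True) (bs := fun c => c.1.2 = true) (st := fun c => (c.1.1 : ℕ))
        (fun _ _ => trivial) (fun c => c.1.1.2)
        (by
          intro σ hσ
          constructor
          · intro h
            exact ⟨⟨(⟨σ, hσ⟩, true), Or.inl ⟨rfl, h⟩⟩, rfl, rfl⟩
          · rintro ⟨⟨⟨⟨σ', hσ'⟩, b⟩, hc⟩, h1, h2⟩
            simp only at h1 h2 hc
            subst h1 h2
            rcases hc with hc | hc
            · exact hc.2
            · exact absurd hc.1 (by simp))
        (by
          intro σ hσ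
          constructor
          · intro h
            exact ⟨⟨(⟨σ, hσ⟩, false), Or.inr ⟨rfl, h⟩⟩, trivial, by simp, rfl⟩
          · rintro ⟨⟨⟨⟨σ', hσ'⟩, b⟩, hc⟩, _, h1, h2⟩
            simp only at h1 h2 hc
            subst h2
            rcases hc with hc | hc
            · exact absurd hc.1 h1
            · exact hc.2)).1 hnode
    have hne : Nonempty {p : Fin (sb k M) × Bool //
        (p.2 = true ∧ bit K' p.1) ∨ (p.2 = false ∧ bit K p.1)} := by
      obtain ⟨y, _⟩ := hsem.2.2.1
      exact ⟨y⟩
    have hsem' : NodeSem k M (fun _ : {p : Fin (sb k M) × Bool //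
        (p.2 = true ∧ bit K' p.1) ∨ (p.2 = false ∧ bit K p.1)} => True)
        (fun c => c.1.2 = true) (fun c => (Q c).st (Q c).root) τ := by
      have : (fun c => (Q c).st (Q c).root) = fun c : {p : Fin (sb k M) × Bool //
        (p.2 = true ∧ bit K' p.1) ∨ (p.2 = false ∧ bit K p.1)} => (c.1.1 : ℕ) := funext hQ
      rw [this]
      exact hsem
    exact ⟨union Q (fun c => c.1.2 = true) hτ hne hsem', rfl⟩

end Pool.Agent.Helper97.BestAction
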